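import Pool.Agent.W793.BE.Defs

/-!
# The Big Equation: elementary facts about defects and convolutions
-/

set_option autoImplicit false

open MeasureTheory Filter Topology
open scoped ContDiff Laplacian InnerProductSpace RealInnerProductSpace

namespace Pool.Agent.W793.BE

open Pool.Agent.H532R3.ME

variable {d : ℕ}

/-- tails of integrable functions -/
lemma tail {f : E d → ℝ} (hf : Integrable f) (h0 : ∀ x, 0 ≤ f x) {ε : ℝ} (hε : 0 < ε) :
    ∃ R : ℝ, 0 < R ∧ ∫ x in {x | R ≤ ‖x‖}, f x ≤ ε := by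
  have h1 : Tendsto (fun n : ℕ => ∫ x in {x : E d | (n : ℝ) ≤ ‖x‖}, f x) atTop
      (𝓝 (∫ x in ⋂ n : ℕ, {x : E d | (n : ℝ) ≤ ‖x‖}, f x)) := by
    apply tendsto_setIntegral_of_antitone
    · intro n
      exact measurableSet_le measurable_const measurable_norm
    · intro a b hab x hx
      simp only [Set.mem_setOf_eq] at hx ⊢
      exact le_trans (by exact_mod_cast hab) hx
    · exact ⟨0, hf.integrableOn⟩
  have h2 : (⋂ n : ℕ, {x : E d | (n : ℝ) ≤ ‖x‖}) = ∅ := by
    ext x
    simp only [Set.mem_iInter, Set.mem_setOf_eq, Set.mem_empty_iff_false, iff_false, not_forall,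
      not_le]
    exact exists_nat_gt ‖x‖
  rw [h2, setIntegral_empty] at h1
  have h3 := (h1.eventually (ge_mem_nhds hε)).and (eventually_gt_atTop 0)
  obtain ⟨n, hn, hn0⟩ := h3.exists
  exact ⟨n, by exact_mod_cast hn0, hn⟩

lemma norm_one_sub_exp_le (t : ℝ) :
    ‖(1 : ℂ) - Complex.exp ((-(t : ℝ) : ℂ) * Complex.I)‖ ≤ |t| := by
  have h := norm_one_sub_exp_sq t
  have h1 := Real.one_sub_sq_div_two_le_cos (x := t)
  rw [← sq_le_sq₀ (norm_nonneg _) (abs_nonneg t), h, sq_abs]
  linarith

/-- Cauchy-Schwarz -/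
lemma cs {μ : Measure (E d)} {f g : E d → ℝ} (hf : Integrable f μ) (h0 : ∀ x, 0 ≤ f x)
    (h1 : Integrable (fun x => f x * g x) μ) (h2 : Integrable (fun x => f x * g x ^ 2) μ) :
    (∫ x, f x * g x ∂μ) ^ 2 ≤ (∫ x, f x ∂μ) * ∫ x, f x * g x ^ 2 ∂μ := by
  set a := ∫ x, f x ∂μ with ha
  set b := ∫ x, f x * g x ∂μ with hb
  set c := ∫ x, f x * g x ^ 2 ∂μ with hc
  have ha0 : 0 ≤ a := integral_nonneg h0
  rcases eq_or_lt_of_le ha0 with h | h
  · have h3 : f =ᵐ[μ] 0 := (integral_eq_zero_iff_of_nonneg h0 hf).1 h.symm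
    have h4 : b = 0 := by
      rw [hb]
      apply integral_eq_zero_of_ae
      filter_upwards [h3] with x hx
      simp [hx]
    rw [h4, ← h]
    simp
  · have key : ∀ t : ℝ, 0 ≤ c - 2 * t * b + t ^ 2 * a := by
      intro t
      have e : ∫ x, f x * (g x - t) ^ 2 ∂μ = c - 2 * t * b + t ^ 2 * a := by
        have e1 : (fun x => f x * (g x - t) ^ 2) =
            fun x => (f x * g x ^ 2 - (2 * t) * (f x * g x)) + t ^ 2 * f x := by
          funext x; ring
        have i1 : Integrable (fun x => (2 * t) * (f x * g x)) μ := h1.const_mul _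
        have i2 : Integrable (fun x => f x * g x ^ 2 - (2 * t) * (f x * g x)) μ := h2.sub i1
        have i3 : Integrable (fun x => t ^ 2 * f x) μ := hf.const_mul _
        rw [e1, integral_add i2 i3, integral_sub h2 i1, integral_const_mul, integral_const_mul]
      rw [← e]
      exact integral_nonneg fun x => mul_nonneg (h0 x) (sq_nonneg _)
    have h5 := key (b / a)
    have h6 : c - 2 * (b / a) * b + (b / a) ^ 2 * a = c - b ^ 2 / a := by
      field_simp
      ring
    rw [h6] at h5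
    have h7 : b ^ 2 / a ≤ c := by linarith
    rw [div_le_iff₀ h] at h7
    linarith

/-- the function `|1 - e^{-ikx}|` -/
noncomputable def ne (k x : E d) : ℝ :=
  ‖(1 : ℂ) - Complex.exp ((-(⟪k, x⟫ : ℝ) : ℂ) * Complex.I)‖

lemma ne_nonneg (k x : E d) : 0 ≤ ne k x := norm_nonneg _

lemma ne_sq (k x : E d) : ne k x ^ 2 = 2 * oc k x := norm_one_sub_exp_sq _

lemma ne_le_two (k x : E d) : ne k x ≤ 2 := by
  have h1 := ne_sq k x
  have h2 := oc_le_two k x
  nlinarith [ne_nonneg k x]

lemma ne_le (k x : E d) : ne k x ≤ ‖k‖ * ‖x‖ :=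
  (norm_one_sub_exp_le _).trans (abs_real_inner_le_norm k x)

lemma ne_continuous (k : E d) : Continuous (ne k) := by unfold ne; fun_prop

lemma integrable_mul_ne {μ : Measure (E d)} {f : E d → ℝ} (hf : Integrable f μ) (k : E d) :
    Integrable (fun x => f x * ne k x) μ := by
  refine hf.mul_bdd (c := 2) (ne_continuous k).aestronglyMeasurable ?_
  filter_upwards with x
  rw [Real.norm_eq_abs, abs_of_nonneg (ne_nonneg k x)]
  exact ne_le_two k x

lemma integrable_mul_ne_sq {μ : Measure (E d)} {f : E d → ℝ} (hf : Integrable f μ) (k : E d) :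
    Integrable (fun x => f x * ne k x ^ 2) μ := by
  refine hf.mul_bdd (c := 4) ((ne_continuous k).pow 2).aestronglyMeasurable ?_
  filter_upwards with x
  rw [Real.norm_eq_abs, abs_of_nonneg (sq_nonneg _), ne_sq]
  linarith [oc_le_two k x]

lemma df_norm_le {f : E d → ℝ} (hf : Integrable f) (h0 : ∀ x, 0 ≤ f x) (k : E d) :
    ‖df f k‖ ≤ ∫ x, f x * ne k x := by
  rw [df_eq hf]
  refine (norm_integral_le_integral_norm _).trans (le_of_eq ?_)
  congr 1; ext x
  rw [norm_mul, Complex.norm_real, Real.norm_eq_abs, abs_of_nonneg (h0 x), mul_comm]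
  rfl

lemma int_ne_sq {f : E d → ℝ} (hf : Integrable f) (h0 : ∀ x, 0 ≤ f x) (k : E d) :
    (∫ x, f x * ne k x) ^ 2 ≤ (∫ x, f x) * (2 * ∫ x, f x * oc k x) := by
  refine (cs hf h0 (integrable_mul_ne hf k) (integrable_mul_ne_sq hf k)).trans (le_of_eq ?_)
  have h : ∫ x, f x * ne k x ^ 2 = 2 * ∫ x, f x * oc k x := by
    rw [← integral_const_mul]
    congr 1; ext x
    rw [ne_sq]; ring
  rw [h]

/-- the square of the defect is small compared to its real part, up to `C |k|^2` -/
lemma df_sq {f : E d → ℝ} (hf : Integrable f) (h0 : ∀ x, 0 ≤ f x) {ε : ℝ} (hε : 0 < ε) :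
    ∃ C : ℝ, 0 ≤ C ∧ ∀ k, ‖df f k‖ ^ 2 ≤ C * ‖k‖ ^ 2 + ε * ∫ x, f x * oc k x := by
  obtain ⟨R, hR, hRt⟩ := tail hf h0 (show 0 < ε / 4 by positivity)
  set F := ∫ x, f x with hF
  have hF0 : 0 ≤ F := integral_nonneg h0
  refine ⟨2 * (R * F) ^ 2, by positivity, fun k => ?_⟩
  set A : Set (E d) := {x | R ≤ ‖x‖} with hA
  have hAm : MeasurableSet A := measurableSet_le measurable_const measurable_norm
  have h1 := df_norm_le hf h0 k
  have h2 : ∫ x, f x * ne k x = (∫ x in A, f x * ne k x) + ∫ x in Aᶜ, f x * ne k x :=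
    (integral_add_compl hAm (integrable_mul_ne hf k)).symm
  have h3 : ∫ x in Aᶜ, f x * ne k x ≤ ‖k‖ * (R * F) := by
    have i1 : Integrable (fun x => (‖k‖ * R) * f x) (volume.restrict Aᶜ) :=
      (hf.const_mul _).integrableOn
    have h4 : ∫ x in Aᶜ, f x * ne k x ≤ ∫ x in Aᶜ, (‖k‖ * R) * f x := by
      apply setIntegral_mono_on (integrable_mul_ne hf k).integrableOn i1 hAm.compl
      intro x hx
      have hx' : ‖x‖ < R := by
        simpa [hA] using hx
      rw [mul_comm]
      exact mul_le_mul_of_nonneg_right ((ne_le k x).trans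
        (mul_le_mul_of_nonneg_left hx'.le (norm_nonneg _))) (h0 x)
    have h5 : ∫ x in Aᶜ, (‖k‖ * R) * f x ≤ (‖k‖ * R) * F := by
      rw [integral_const_mul]
      exact mul_le_mul_of_nonneg_left (setIntegral_le_integral hf
        (Eventually.of_forall h0)) (by positivity)
    linarith
  have h6 : (∫ x in A, f x * ne k x) ^ 2 ≤ (ε / 4) * (2 * ∫ x, f x * oc k x) := by
    have h7 := cs (μ := volume.restrict A) hf.integrableOn h0 (integrable_mul_ne hf.integrableOn k)
      (integrable_mul_ne_sq hf.integrableOn k)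
    refine h7.trans ?_
    have h8 : ∫ x in A, f x * ne k x ^ 2 ≤ 2 * ∫ x, f x * oc k x := by
      rw [← integral_const_mul]
      refine (setIntegral_le_integral (integrable_mul_ne_sq hf k)
        (Eventually.of_forall fun x => mul_nonneg (h0 x) (sq_nonneg _))).trans (le_of_eq ?_)
      congr 1; ext x
      rw [ne_sq]; ring
    have h9 : 0 ≤ ∫ x in A, f x * ne k x ^ 2 :=
      integral_nonneg fun x => mul_nonneg (h0 x) (sq_nonneg _)
    exact mul_le_mul hRt h8 h9 (by positivity)
  have hn := norm_nonneg (df f k)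
  have h10 : ‖df f k‖ ^ 2 ≤ ((∫ x in A, f x * ne k x) + ‖k‖ * (R * F)) ^ 2 := by
    apply pow_le_pow_left₀ hn
    linarith
  nlinarith [sq_nonneg ((∫ x in A, f x * ne k x) - ‖k‖ * (R * F))]

/-- a light tailed factor -/
lemma light {f M : E d → ℝ} (hf : Integrable f) (h0 : ∀ x, 0 ≤ f x)
    (hM : AEStronglyMeasurable M) (hM0 : ∀ x, 0 ≤ M x) {B : ℝ} (hB : ∀ x, M x ≤ B)
    (hd : ∀ ε : ℝ, 0 < ε → ∃ R : ℝ, 0 < R ∧ ∀ x, R ≤ ‖x‖ → M x ≤ ε) {ε : ℝ} (hε : 0 < ε) :
    ∃ C : ℝ, 0 ≤ C ∧ ∀ k, ∫ x, (f x * M x) * oc k x ≤ C * ‖k‖ ^ 2 + ε * ∫ x, f x * oc k x := by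
  obtain ⟨R, hR, hRM⟩ := hd ε hε
  have hB0 : 0 ≤ B := (hM0 0).trans (hB 0)
  set F := ∫ x, f x with hF
  have hF0 : 0 ≤ F := integral_nonneg h0
  refine ⟨B * R ^ 2 * F, by positivity, fun k => ?_⟩
  have hfM : Integrable (fun x => f x * M x) := by
    refine hf.mul_bdd (c := B) hM ?_
    filter_upwards with x
    rw [Real.norm_eq_abs, abs_of_nonneg (hM0 x)]
    exact hB x
  have h1 : ∀ x, (f x * M x) * oc k x ≤ (B * R ^ 2 * ‖k‖ ^ 2) * f x + ε * (f x * oc k x) := by
    intro x
    have hfx := h0 x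
    have hox := oc_nonneg k x
    rcases le_or_gt R ‖x‖ with h | h
    · have h2 := hRM x h
      have h3 : (f x * M x) * oc k x ≤ ε * (f x * oc k x) := by
        have : (f x * oc k x) * M x ≤ (f x * oc k x) * ε :=
          mul_le_mul_of_nonneg_left h2 (by positivity)
        linarith
      have h4 : 0 ≤ (B * R ^ 2 * ‖k‖ ^ 2) * f x := by positivity
      linarith
    · have h2 : oc k x ≤ R ^ 2 * ‖k‖ ^ 2 := by
        refine (oc_le_sq k x).trans ?_
        have h5 : ‖x‖ ^ 2 ≤ R ^ 2 := pow_le_pow_left₀ (norm_nonneg _) h.le 2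
        have h6 : ‖k‖ ^ 2 * ‖x‖ ^ 2 ≤ ‖k‖ ^ 2 * R ^ 2 :=
          mul_le_mul_of_nonneg_left h5 (by positivity)
        nlinarith [sq_nonneg (‖k‖ * R), sq_nonneg (‖k‖ * ‖x‖)]
      have h3 : (f x * M x) * oc k x ≤ (f x * B) * (R ^ 2 * ‖k‖ ^ 2) :=
        mul_le_mul (mul_le_mul_of_nonneg_left (hB x) hfx) h2 hox (by positivity)
      have h4 : 0 ≤ ε * (f x * oc k x) := by positivity
      nlinarith
  have i1 : Integrable (fun x => (B * R ^ 2 * ‖k‖ ^ 2) * f x) := hf.const_mul _
  have i2 : Integrable (fun x => ε * (f x * oc k x)) := (integrable_mul_oc hf k).const_mul _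
  calc ∫ x, (f x * M x) * oc k x ≤ ∫ x, ((B * R ^ 2 * ‖k‖ ^ 2) * f x + ε * (f x * oc k x)) :=
        integral_mono (integrable_mul_oc hfM k) (i1.add i2) h1
    _ = B * R ^ 2 * F * ‖k‖ ^ 2 + ε * ∫ x, f x * oc k x := by
        rw [integral_add i1 i2, integral_const_mul, integral_const_mul]
        ring

lemma conv_nonneg {f g : E d → ℝ} (hf : ∀ x, 0 ≤ f x) (hg : ∀ x, 0 ≤ g x) (x : E d) :
    0 ≤ conv f g x := integral_nonneg fun y => mul_nonneg (hf _) (hg _)

lemma int_shift (f : E d → ℝ) (x : E d) : ∫ y, f (x - y) = ∫ y, f y :=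
  integral_sub_left_eq_self f volume x

lemma integrable_conv_integrand {f g : E d → ℝ} (hf : Integrable f) (hg : AEStronglyMeasurable g)
    {B : ℝ} (hB : ∀ x, |g x| ≤ B) (x : E d) : Integrable (fun y => f (x - y) * g y) := by
  have h1 : Integrable (fun y => f (x - y)) := hf.comp_sub_left x
  exact h1.mul_bdd (c := B) hg (Eventually.of_forall hB)

lemma conv_le {f g : E d → ℝ} (hf : Integrable f) (hf0 : ∀ x, 0 ≤ f x)
    (hg : AEStronglyMeasurable g) {B : ℝ} (hg0 : ∀ x, 0 ≤ g x) (hB : ∀ x, g x ≤ B) (x : E d) :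
    conv f g x ≤ B * ∫ y, f y := by
  have hB' : ∀ x, |g x| ≤ B := fun x => by rw [abs_of_nonneg (hg0 x)]; exact hB x
  rw [← int_shift f x, ← integral_const_mul]
  apply integral_mono (integrable_conv_integrand hf hg hB' x)
    ((hf.comp_sub_left x).const_mul B)
  intro y
  have := mul_le_mul_of_nonneg_left (hB y) (hf0 (x - y))
  simpa [mul_comm] using this

/-- convolutions decay at infinity -/
lemma conv_decay {f g : E d → ℝ} (hf : Integrable f) (hg : Integrable g) (hf0 : ∀ x, 0 ≤ f x)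
    (hg0 : ∀ x, 0 ≤ g x) {a b : ℝ} (ha : 0 < a) (hb : 0 < b) (hfa : ∀ x, f x ≤ a)
    (hgb : ∀ x, g x ≤ b) {ε : ℝ} (hε : 0 < ε) :
    ∃ R : ℝ, 0 < R ∧ ∀ x, R ≤ ‖x‖ → conv f g x ≤ ε := by
  obtain ⟨R1, hR1, h1⟩ := tail hf hf0 (show 0 < ε / (2 * b) by positivity)
  obtain ⟨R2, hR2, h2⟩ := tail hg hg0 (show 0 < ε / (2 * a) by positivity)
  refine ⟨R1 + R2, by positivity, fun x hx => ?_⟩
  have hg' : ∀ x, |g x| ≤ b := fun x => by rw [abs_of_nonneg (hg0 x)]; exact hgb x
  set A : Set (E d) := {y | R2 ≤ ‖y‖} with hA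
  have hAm : MeasurableSet A := measurableSet_le measurable_const measurable_norm
  have i0 := integrable_conv_integrand hf hg.aestronglyMeasurable hg' x
  have e : conv f g x = (∫ y in A, f (x - y) * g y) + ∫ y in Aᶜ, f (x - y) * g y :=
    (integral_add_compl hAm i0).symm
  have b1 : ∫ y in A, f (x - y) * g y ≤ ε / 2 := by
    calc ∫ y in A, f (x - y) * g y ≤ ∫ y in A, a * g y := by
          apply setIntegral_mono_on i0.integrableOn (hg.const_mul a).integrableOn hAm
          intro y _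
          exact mul_le_mul_of_nonneg_right (hfa _) (hg0 y)
      _ = a * ∫ y in A, g y := integral_const_mul _ _
      _ ≤ a * (ε / (2 * a)) := mul_le_mul_of_nonneg_left h2 ha.le
      _ = ε / 2 := by field_simp
  have b2 : ∫ y in Aᶜ, f (x - y) * g y ≤ ε / 2 := by
    set D : Set (E d) := {y | R1 ≤ ‖y‖} with hD
    have hDm : MeasurableSet D := measurableSet_le measurable_const measurable_norm
    have i1 : Integrable (fun y => f (x - y)) := hf.comp_sub_left x
    have i2 : Integrable (D.indicator f) := hf.indicator hDm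
    have i3 : Integrable (fun y => D.indicator f (x - y)) := i2.comp_sub_left x
    calc ∫ y in Aᶜ, f (x - y) * g y ≤ ∫ y in Aᶜ, b * D.indicator f (x - y) := by
          apply setIntegral_mono_on i0.integrableOn (i3.const_mul b).integrableOn hAm.compl
          intro y hy
          have hy' : ‖y‖ < R2 := by simpa [hA] using hy
          have hxy : R1 ≤ ‖x - y‖ := by
            have := norm_sub_norm_le x y
            linarith
          have hmem : x - y ∈ D := hxy
          rw [Set.indicator_of_mem hmem, mul_comm]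
          exact mul_le_mul_of_nonneg_right (hgb _) (hf0 _)
      _ ≤ ∫ y, b * D.indicator f (x - y) := by
          apply setIntegral_le_integral (i3.const_mul b)
          filter_upwards with y
          exact mul_nonneg hb.le (Set.indicator_nonneg (fun z _ => hf0 z) _)
      _ = b * ∫ y in D, f y := by
          rw [integral_const_mul, int_shift (D.indicator f) x, integral_indicator hDm]
      _ ≤ b * (ε / (2 * b)) := mul_le_mul_of_nonneg_left h1 hb.le
      _ = ε / 2 := by field_simp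
  linarith

/-- infinite second moment: the real part of the defect is not `O(|k|^2)` -/
lemma inf_moment {f : E d → ℝ} (hf : Integrable f) (h0 : ∀ x, 0 ≤ f x)
    (hinf : ¬ Integrable (fun x => ‖x‖ ^ 2 * f x)) (M : ℝ) {δ : ℝ} (hδ : 0 < δ) :
    ∃ k : E d, k ≠ 0 ∧ ‖k‖ < δ ∧ M * ‖k‖ ^ 2 < ∫ x, f x * oc k x := by
  by_contra hcon
  push Not at hcon
  apply hinf
  -- each coordinate
  have hco : ∀ i : Fin d, Integrable (fun x : E d => (x i) ^ 2 * f x) := by
    intro i
    set e : E d := EuclideanSpace.single i (1 : ℝ) with he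
    have hen : ‖e‖ = 1 := by simp [he]
    have hin : ∀ (t : ℝ) (x : E d), ⟪t • e, x⟫ = t * x i := by
      intro t x
      rw [real_inner_smul_left, he, EuclideanSpace.inner_single_left]
      simp
    have hcoord : ∀ x : E d, |x i| ≤ ‖x‖ := fun x => by
      have := PiLp.norm_apply_le x i
      simpa using this
    refine (aecover_closedBall (μ := volume) (x := (0 : E d))
      (tendsto_natCast_atTop_atTop (R := ℝ))).integrable_of_integral_norm_bounded
      (M * (Real.pi ^ 2 / 2)) (fun n => ?_) (Eventually.of_forall fun n => ?_)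
    · refine (hf.integrableOn (s := Metric.closedBall 0 (n : ℝ))).bdd_mul (c := (n : ℝ) ^ 2)
        (by fun_prop) ?_
      filter_upwards [ae_restrict_mem measurableSet_closedBall] with x hx
      rw [mem_closedBall_zero_iff] at hx
      rw [norm_pow, Real.norm_eq_abs]
      exact pow_le_pow_left₀ (abs_nonneg _) ((hcoord x).trans hx) 2
    · -- choose t
      obtain ⟨t, ht0, ht1, ht2⟩ : ∃ t : ℝ, 0 < t ∧ t < δ ∧ t * n ≤ Real.pi := by
        refine ⟨min (δ / 2) (Real.pi / (n + 1)), lt_min (by positivity) (by positivity),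
          lt_of_le_of_lt (min_le_left _ _) (by linarith), ?_⟩
        have h1 : min (δ / 2) (Real.pi / (n + 1)) * n ≤ Real.pi / (n + 1) * n :=
          mul_le_mul_of_nonneg_right (min_le_right _ _) (Nat.cast_nonneg n)
        have h2 : Real.pi / ((n : ℝ) + 1) * n ≤ Real.pi := by
          rw [div_mul_eq_mul_div, div_le_iff₀ (by positivity)]
          nlinarith [Real.pi_pos, Nat.cast_nonneg (α := ℝ) n]
        linarith
      have hek : ‖t • e‖ = t := by
        rw [norm_smul, hen, mul_one, Real.norm_eq_abs, abs_of_pos ht0]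
      have h1 := hcon (t • e) (by
        intro h
        rw [h, norm_zero] at hek
        exact ht0.ne hek) (by rw [hek]; exact ht1)
      rw [hek] at h1
      have h2 : ∫ x in Metric.closedBall (0 : E d) n, ‖(x i) ^ 2 * f x‖ ≤
          ∫ x in Metric.closedBall (0 : E d) n, (Real.pi ^ 2 / (2 * t ^ 2)) * (f x * oc (t • e) x) := by
        have i1 : IntegrableOn (fun x : E d => (x i) ^ 2 * f x) (Metric.closedBall 0 (n : ℝ)) := by
          refine (hf.integrableOn (s := Metric.closedBall 0 (n : ℝ))).bdd_mul (c := (n : ℝ) ^ 2)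
            (by fun_prop) ?_
          filter_upwards [ae_restrict_mem measurableSet_closedBall] with x hx
          rw [mem_closedBall_zero_iff] at hx
          rw [norm_pow, Real.norm_eq_abs]
          exact pow_le_pow_left₀ (abs_nonneg _) ((hcoord x).trans hx) 2
        apply setIntegral_mono_on i1.norm
          ((integrable_mul_oc hf (t • e)).const_mul _).integrableOn measurableSet_closedBall
        intro x hx
        rw [mem_closedBall_zero_iff] at hx
        have h3 : |t * x i| ≤ Real.pi := by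
          rw [abs_mul, abs_of_pos ht0]
          calc t * |x i| ≤ t * n := mul_le_mul_of_nonneg_left ((hcoord x).trans hx) ht0.le
            _ ≤ Real.pi := ht2
        have h4 := Real.cos_le_one_sub_mul_cos_sq h3
        have h5 : 2 / Real.pi ^ 2 * (t * x i) ^ 2 ≤ oc (t • e) x := by
          unfold oc
          rw [hin]
          linarith
        have h6 : (x i) ^ 2 ≤ Real.pi ^ 2 / (2 * t ^ 2) * oc (t • e) x := by
          have h7 := mul_le_mul_of_nonneg_left h5
            (show 0 ≤ Real.pi ^ 2 / (2 * t ^ 2) by positivity)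
          have h8 : Real.pi ^ 2 / (2 * t ^ 2) * (2 / Real.pi ^ 2 * (t * x i) ^ 2) = (x i) ^ 2 := by
            have := Real.pi_ne_zero
            field_simp
          linarith
        rw [norm_mul, Real.norm_eq_abs, Real.norm_eq_abs, abs_of_nonneg (sq_nonneg _),
          abs_of_nonneg (h0 x)]
        calc (x i) ^ 2 * f x ≤ (Real.pi ^ 2 / (2 * t ^ 2) * oc (t • e) x) * f x :=
              mul_le_mul_of_nonneg_right h6 (h0 x)
          _ = _ := by ring
      refine h2.trans ?_
      rw [integral_const_mul]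
      have h9 : ∫ x in Metric.closedBall (0 : E d) n, f x * oc (t • e) x ≤
          ∫ x, f x * oc (t • e) x :=
        setIntegral_le_integral (integrable_mul_oc hf _)
          (Eventually.of_forall fun x => mul_nonneg (h0 x) (oc_nonneg _ _))
      calc Real.pi ^ 2 / (2 * t ^ 2) * ∫ x in Metric.closedBall (0 : E d) n, f x * oc (t • e) x
          ≤ Real.pi ^ 2 / (2 * t ^ 2) * (M * t ^ 2) :=
            mul_le_mul_of_nonneg_left (h9.trans h1) (by positivity)
        _ = M * (Real.pi ^ 2 / 2) := by field_simp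
  have hsum : Integrable (fun x : E d => ∑ i, (x i) ^ 2 * f x) := integrable_finset_sum _ fun i _ => hco i
  refine hsum.congr (Eventually.of_forall fun x => ?_)
  simp only
  rw [← Finset.sum_mul, EuclideanSpace.norm_sq_eq]
  simp

/-- multiples of the wave vector -/
lemma krein {f : E d → ℝ} (hf : Integrable f) (h0 : ∀ x, 0 ≤ f x) (n : ℕ) (k : E d) :
    ‖df f ((n : ℝ) • k)‖ ≤ n * ‖df f k‖ + n ^ 2 * ∫ x, f x * oc k x := by
  have hz : ∀ (n : ℕ) (z : ℂ), ‖z‖ = 1 → ‖(1 - z ^ n) - n * (1 - z)‖ ≤ n ^ 2 / 2 * ‖1 - z‖ ^ 2 := by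
    intro n z hz
    induction n with
    | zero => simp
    | succ n ih =>
      have h1 : (1 - z ^ (n + 1)) - ((n + 1 : ℕ) : ℂ) * (1 - z) =
          ((1 - z ^ n) - n * (1 - z)) - (1 - z) * (1 - z ^ n) := by
        push_cast
        ring
      have h2 : ‖1 - z ^ n‖ ≤ n * ‖1 - z‖ := by
        clear ih h1
        induction n with
        | zero => simp
        | succ m ih2 =>
          have h3 : 1 - z ^ (m + 1) = (1 - z ^ m) + z ^ m * (1 - z) := by ring
          rw [h3]
          refine (norm_add_le _ _).trans ?_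
          rw [norm_mul, norm_pow, hz, one_pow, one_mul]
          push_cast
          linarith
      rw [h1]
      refine (norm_sub_le _ _).trans ?_
      rw [norm_mul]
      have h4 : ‖1 - z‖ * ‖1 - z ^ n‖ ≤ ‖1 - z‖ * (n * ‖1 - z‖) :=
        mul_le_mul_of_nonneg_left h2 (norm_nonneg _)
      push_cast
      nlinarith [sq_nonneg ‖1 - z‖]
  have hexp : ∀ x : E d, Complex.exp ((-(⟪(n : ℝ) • k, x⟫ : ℝ) : ℂ) * Complex.I) =
      Complex.exp ((-(⟪k, x⟫ : ℝ) : ℂ) * Complex.I) ^ n := by
    intro x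
    rw [← Complex.exp_nat_mul, real_inner_smul_left]
    congr 1
    push_cast
    ring
  have hn1 : ∀ x : E d, ‖Complex.exp ((-(⟪k, x⟫ : ℝ) : ℂ) * Complex.I)‖ = 1 := by
    intro x
    rw [← Complex.ofReal_neg, Complex.norm_exp_ofReal_mul_I]
  have i1 : ∀ k' : E d, Integrable (fun x =>
      (1 - Complex.exp ((-(⟪k', x⟫ : ℝ) : ℂ) * Complex.I)) * (f x : ℂ)) := by
    intro k'
    have : Integrable (fun x => Complex.exp ((-(⟪k', x⟫ : ℝ) : ℂ) * Complex.I) * (f x : ℂ)) := by
      simp_rw [hat_integrand]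
      exact (integrable_mul_cos hf k').ofReal.sub ((integrable_mul_sin hf k').ofReal.mul_const _)
    refine (hf.ofReal.sub this).congr (Eventually.of_forall fun x => ?_)
    change (f x : ℂ) - Complex.exp ((-(⟪k', x⟫ : ℝ) : ℂ) * Complex.I) * (f x : ℂ) = _
    ring
  have h5 : df f ((n : ℝ) • k) - n * df f k = ∫ x,
      ((1 - Complex.exp ((-(⟪k, x⟫ : ℝ) : ℂ) * Complex.I) ^ n) -
        n * (1 - Complex.exp ((-(⟪k, x⟫ : ℝ) : ℂ) * Complex.I))) * (f x : ℂ) := by
    rw [df_eq hf, df_eq hf, ← integral_const_mul, ← integral_sub (i1 _) ((i1 k).const_mul _)]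
    congr 1; ext x
    rw [hexp]
    ring
  have h6 : ‖df f ((n : ℝ) • k) - n * df f k‖ ≤ n ^ 2 * ∫ x, f x * oc k x := by
    rw [h5]
    refine (norm_integral_le_integral_norm _).trans ?_
    rw [← integral_const_mul]
    apply integral_mono_of_nonneg (Eventually.of_forall fun x => norm_nonneg _)
      ((integrable_mul_oc hf k).const_mul _)
    filter_upwards with x
    rw [norm_mul, Complex.norm_real, Real.norm_eq_abs, abs_of_nonneg (h0 x)]
    have h7 := hz n _ (hn1 x)
    have h8 : ‖1 - Complex.exp ((-(⟪k, x⟫ : ℝ) : ℂ) * Complex.I)‖ ^ 2 = 2 * oc k x := ne_sq k x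
    rw [h8] at h7
    calc _ ≤ (n ^ 2 / 2 * (2 * oc k x)) * f x := mul_le_mul_of_nonneg_right h7 (h0 x)
      _ = _ := by ring
  have h9 : df f ((n : ℝ) • k) = (df f ((n : ℝ) • k) - n * df f k) + n * df f k := by ring
  rw [h9]
  refine (norm_add_le _ _).trans ?_
  rw [norm_mul, Complex.norm_natCast]
  linarith

end Pool.Agent.W793.BE
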