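import Pool.Agent.H532R3.ME.Medium

/-!
# The Big Equation of the simplified approach to the Bose gas: definitions
-/

set_option autoImplicit false

open MeasureTheory Filter Topology
open scoped ContDiff Laplacian InnerProductSpace RealInnerProductSpace

namespace Pool.Agent.W793.BE

open Pool.Agent.H532R3.ME

variable {d : ℕ}

/-- `S = (1 - u) v` -/
noncomputable def SS (v u : E d → ℝ) : E d → ℝ := fun x => (1 - u x) * v x

/-- `K = u * S` (convolution) -/
noncomputable def KK (v u : E d → ℝ) : E d → ℝ := conv u (SS v u)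

/-- `L = u * u * S - 2 u * (u (u * S))` -/
noncomputable def LL (v u : E d → ℝ) : E d → ℝ := fun x =>
  conv u (KK v u) x - 2 * conv u (fun y => u y * KK v u y) x

/-- `u` is an integrable solution of the Big Equation with values in `[0, 1]` (almost everywhere),
in the sense of distributions:
`-(1/m) Δ u = (1-u) v + (1-u) (-2 ρ K + ρ ^ 2 L)` with `S = (1-u) v`, `K = u * S`,
`L = u * u * S - 2 u * (u (u * S))`. -/
structure IsBigSolution (m ρ : ℝ) (v u : E d → ℝ) : Prop where
  integrable : Integrable u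
  range : ∀ᵐ x, 0 ≤ u x ∧ u x ≤ 1
  eqn : ∀ φ : E d → ℝ, ContDiff ℝ ∞ φ → HasCompactSupport φ →
    -(1 / m) * ∫ x, u x * (Δ φ) x =
      ∫ x, ((1 - u x) * v x + (1 - u x) * (-2 * ρ * KK v u x + ρ ^ 2 * LL v u x)) * φ x

/-- `1 - cos (k x)` -/
noncomputable def oc (k x : E d) : ℝ := 1 - Real.cos ⟪k, x⟫

lemma oc_nonneg (k x : E d) : 0 ≤ oc k x := by unfold oc; linarith [Real.cos_le_one ⟪k, x⟫]

lemma oc_le_two (k x : E d) : oc k x ≤ 2 := by unfold oc; linarith [Real.neg_one_le_cos ⟪k, x⟫]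

lemma oc_le_sq (k x : E d) : oc k x ≤ ‖k‖ ^ 2 * ‖x‖ ^ 2 / 2 := by
  unfold oc
  have h1 := Real.one_sub_sq_div_two_le_cos (x := ⟪k, x⟫)
  have h2 : ⟪k, x⟫ ^ 2 ≤ ‖k‖ ^ 2 * ‖x‖ ^ 2 := by
    rw [← mul_pow]
    exact sq_le_sq' (by linarith [abs_real_inner_le_norm k x, neg_abs_le ⟪k, x⟫])
      ((le_abs_self _).trans (abs_real_inner_le_norm k x))
  linarith

lemma oc_continuous (k : E d) : Continuous (oc k) := by unfold oc; fun_prop

lemma integrable_mul_oc {f : E d → ℝ} (hf : Integrable f) (k : E d) :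
    Integrable (fun x => f x * oc k x) := by
  refine hf.mul_bdd (c := 2) (oc_continuous k).aestronglyMeasurable ?_
  filter_upwards with x
  rw [Real.norm_eq_abs, abs_of_nonneg (oc_nonneg k x)]
  exact oc_le_two k x

/-- the defect `∫ f - hat f k` -/
noncomputable def df (f : E d → ℝ) (k : E d) : ℂ := ((∫ x, f x : ℝ) : ℂ) - hat f k

lemma df_re {f : E d → ℝ} (hf : Integrable f) (k : E d) : (df f k).re = ∫ x, f x * oc k x := by
  unfold df oc
  rw [Complex.sub_re, Complex.ofReal_re, hat_re hf, ← integral_sub hf (integrable_mul_cos hf k)]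
  congr 1; ext x; ring

lemma norm_one_sub_exp_sq (t : ℝ) :
    ‖(1 : ℂ) - Complex.exp ((-(t : ℝ) : ℂ) * Complex.I)‖ ^ 2 = 2 * (1 - Real.cos t) := by
  have h : (1 : ℂ) - Complex.exp ((-(t : ℝ) : ℂ) * Complex.I) =
      ((1 - Real.cos t : ℝ) : ℂ) + ((Real.sin t : ℝ) : ℂ) * Complex.I := by
    rw [Complex.exp_mul_I, Complex.cos_neg, Complex.sin_neg]
    push_cast
    ring
  rw [h, Complex.sq_norm, Complex.normSq_add_mul_I]
  have := Real.sin_sq_add_cos_sq t
  nlinarith

/-- the defect is at most the integral of `f |1 - e^{-ikx}|` -/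
lemma df_eq {f : E d → ℝ} (hf : Integrable f) (k : E d) :
    df f k = ∫ x, (1 - Complex.exp ((-(⟪k, x⟫ : ℝ) : ℂ) * Complex.I)) * (f x : ℂ) := by
  unfold df
  rw [hat_eq, ← integral_complex_ofReal, ← integral_sub hf.ofReal]
  · congr 1; ext x; ring
  · simp_rw [hat_integrand]
    exact (integrable_mul_cos hf k).ofReal.sub ((integrable_mul_sin hf k).ofReal.mul_const _)

end Pool.Agent.W793.BE
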