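import Pool.Agent.W793.BE.Fin
import Pool.Agent.H532R3.ME.Radial

/-!
# The Big Equation: a potential to which the theorem applies
-/

set_option autoImplicit false

open MeasureTheory Filter Topology
open scoped ContDiff Laplacian InnerProductSpace RealInnerProductSpace

namespace Pool.Agent.W793.BE

open Pool.Agent.H532R3.ME

variable {d : ℕ}

/-- `(1 + |x|)^(-(d+1))` -/
noncomputable def wt (x : E d) : ℝ := ((1 + ‖x‖) ^ (d + 1))⁻¹

lemma wt_pos (x : E d) : 0 < wt x := by unfold wt; positivity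

lemma wt_le (x : E d) : wt x ≤ 1 := by
  unfold wt
  apply inv_le_one_of_one_le₀
  exact one_le_pow₀ (by linarith [norm_nonneg x])

lemma wt_integrable : Integrable (wt : E d → ℝ) := by
  have h := integrable_one_add_norm (E := E d) (μ := volume) (r := (d : ℝ) + 1)
    (by rw [finrank_euclideanSpace_fin]; linarith)
  refine h.congr (Eventually.of_forall fun x => ?_)
  simp only [wt]
  rw [Real.rpow_neg (by positivity)]
  congr 1
  have : ((d : ℝ) + 1) = ((d + 1 : ℕ) : ℝ) := by push_cast; ring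
  rw [this, Real.rpow_natCast]

lemma wt_continuous : Continuous (wt : E d → ℝ) := by
  unfold wt
  refine Continuous.inv₀ (by fun_prop) fun x => ?_
  positivity

lemma wt_moment (hd : 1 ≤ d) : ¬ Integrable (fun x : E d => ‖x‖ ^ 2 * wt x) := by
  haveI : Nontrivial (E d) := by
    haveI : Nonempty (Fin d) := ⟨⟨0, by omega⟩⟩
    infer_instance
  intro h
  have h1 := (integrable_fun_norm_addHaar (μ := (volume : Measure (E d)))
    (f := fun y : ℝ => y ^ 2 * ((1 + y) ^ (d + 1))⁻¹)).1 h
  have h2 : IntegrableOn (fun y : ℝ => y ^ (Module.finrank ℝ (E d) - 1) •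
      (y ^ 2 * ((1 + y) ^ (d + 1))⁻¹)) (Set.Ioi 1) :=
    h1.mono_set (Set.Ioi_subset_Ioi zero_le_one)
  have h3 : IntegrableOn (fun _ : ℝ => ((1 : ℝ) / 2) ^ (d + 1)) (Set.Ioi 1) := by
    refine h2.mono' aestronglyMeasurable_const ?_
    filter_upwards [ae_restrict_mem measurableSet_Ioi] with y hy
    have hy1 : (1 : ℝ) < y := hy
    have hy0 : 0 < y := by linarith
    rw [Real.norm_eq_abs, abs_of_pos (by positivity), finrank_euclideanSpace_fin, smul_eq_mul]
    have e : y ^ (d - 1) * (y ^ 2 * ((1 + y) ^ (d + 1))⁻¹) = (y / (1 + y)) ^ (d + 1) := by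
      rw [div_pow, div_eq_mul_inv, ← mul_assoc, ← pow_add]
      congr 2
      omega
    rw [e]
    apply pow_le_pow_left₀ (by norm_num)
    rw [div_le_div_iff₀ (by norm_num) (by positivity)]
    linarith
  have h4 : ((1 : ℝ) / 2) ^ (d + 1) ≠ 0 := by positivity
  rw [integrableOn_const_iff] at h3
  rcases h3 with h5 | h5
  · simp at h5
  · simp at h5

/-- the example `A (e^{-|x|²} - e^{-2|x|²}) + (1 + |x|)^{-(d+1)}` -/
noncomputable def vA (A : ℝ) (x : E d) : ℝ := A * vex x + wt x

lemma vA_pos {A : ℝ} (hA : 0 ≤ A) (x : E d) : 0 < vA A x := by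
  unfold vA
  have := mul_nonneg hA (vex_bounds x).1
  linarith [wt_pos x]

lemma vA_le {A : ℝ} (hA : 0 ≤ A) (x : E d) : vA A x ≤ A + 1 := by
  unfold vA
  have := mul_le_mul_of_nonneg_left (vex_bounds x).2 hA
  linarith [wt_le x]

lemma vA_integrable (A : ℝ) : Integrable (vA A : E d → ℝ) := (vex_integrable.const_mul A).add wt_integrable

lemma vA_continuous (A : ℝ) : Continuous (vA A : E d → ℝ) := by
  unfold vA
  exact (continuous_const.mul vex_continuous).add wt_continuous

lemma vA_radial (A : ℝ) : Radial (vA A : E d → ℝ) := by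
  intro x y h
  simp only [vA, wt]
  rw [vex_radial x y h, h]

lemma vA_admissible (hd : 1 ≤ d) {A : ℝ} (hA : 0 ≤ A) : Admissible (vA A : E d → ℝ) := by
  refine ⟨fun x => (vA_pos hA x).le, ?_, vA_integrable A, ⟨max ((d : ℝ) / 2) 1 + 1, by linarith, ?_⟩⟩
  · intro h
    have h1 : (vA A : E d → ℝ) = 0 :=
      (Continuous.ae_eq_iff_eq volume (vA_continuous A) continuous_const).mp h
    have h2 := congrFun h1 0
    exact (vA_pos hA 0).ne' h2
  · set p := max ((d : ℝ) / 2) 1 + 1 with hp
    have hp1 : 1 ≤ p := by linarith [le_max_right ((d : ℝ) / 2) 1]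
    rw [← integrable_norm_rpow_iff (vA_continuous A).aestronglyMeasurable (by
      rw [Ne, ENNReal.ofReal_eq_zero, not_le]; linarith) ENNReal.ofReal_ne_top]
    rw [ENNReal.toReal_ofReal (by linarith)]
    refine ((vA_integrable (d := d) A).const_mul ((A + 1) ^ (p - 1))).mono' (by
      exact ((vA_continuous A).norm.rpow_const (fun _ => Or.inr (by linarith))).aestronglyMeasurable) ?_
    filter_upwards with x
    have h0 := vA_pos hA x
    have h1 := vA_le hA x
    rw [Real.norm_eq_abs, Real.norm_eq_abs, abs_of_pos h0, abs_of_nonneg (by positivity)]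
    have e : vA A x ^ p = vA A x ^ (p - 1) * vA A x := by
      rw [← Real.rpow_add_one h0.ne']; congr 1; ring
    rw [e]
    apply mul_le_mul_of_nonneg_right _ h0.le
    exact Real.rpow_le_rpow h0.le h1 (by linarith)

lemma hat_im_radial {v : E d → ℝ} (hv : Integrable v) (hr : Radial v) (k : E d) : (hat v k).im = 0 := by
  have h1 := hat_neg_im hv k
  have h2 : hat v (-k) = hat v k := by
    rw [hat_eq, hat_eq, ← integral_neg_eq_self]
    congr 1; ext x
    rw [hr (-x) x (norm_neg x), inner_neg_neg]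
  rw [h2] at h1
  linarith

/-- the transform of the example vanishes somewhere -/
lemma vA_zero (hd : 1 ≤ d) : ∃ A : ℝ, 0 ≤ A ∧ ∃ k : E d, hat (vA A : E d → ℝ) k = 0 := by
  obtain ⟨k₀, hk₀⟩ := vex_neg (d := d) hd
  set η := -∫ x : E d, vex x * Real.cos ⟪k₀, x⟫ with hη
  have hη0 : 0 < η := by rw [hη]; linarith
  set W := ∫ x : E d, wt x with hW
  have hW0 : 0 ≤ W := integral_nonneg fun x => (wt_pos x).le
  set A := W / η + 1 with hA
  have hA0 : 0 ≤ A := by positivity
  refine ⟨A, hA0, ?_⟩
  have hcont : Continuous fun t : ℝ => (hat (vA A : E d → ℝ) (t • k₀)).re :=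
    Complex.continuous_re.comp ((hat_continuous (vA_integrable A)).comp (by fun_prop))
  have h0 : 0 ≤ (hat (vA A : E d → ℝ) ((0 : ℝ) • k₀)).re := by
    rw [zero_smul, hat_zero (vA_integrable A), Complex.ofReal_re]
    exact integral_nonneg fun x => (vA_pos hA0 x).le
  have h1 : (hat (vA A : E d → ℝ) ((1 : ℝ) • k₀)).re ≤ 0 := by
    rw [one_smul, hat_re (vA_integrable A)]
    have i1 : Integrable (fun x : E d => A * (vex x * Real.cos ⟪k₀, x⟫)) :=
      (integrable_mul_cos vex_integrable k₀).const_mul A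
    have i2 := integrable_mul_cos (wt_integrable (d := d)) k₀
    have e : ∫ x : E d, vA A x * Real.cos ⟪k₀, x⟫ =
        A * (∫ x : E d, vex x * Real.cos ⟪k₀, x⟫) + ∫ x : E d, wt x * Real.cos ⟪k₀, x⟫ := by
      rw [← integral_const_mul, ← integral_add i1 i2]
      congr 1; ext x
      unfold vA; ring
    have e2 : ∫ x : E d, wt x * Real.cos ⟪k₀, x⟫ ≤ W := by
      apply integral_mono i2 wt_integrable
      intro x
      have := mul_le_mul_of_nonneg_left (Real.cos_le_one ⟪k₀, x⟫) (wt_pos x).le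
      simpa using this
    have e3 : ∫ x : E d, vex x * Real.cos ⟪k₀, x⟫ = -η := by rw [hη]; ring
    rw [e, e3]
    have e4 : W / η * η = W := by field_simp
    have e5 : A * η = W + η := by rw [hA, add_mul, e4, one_mul]
    linarith
  have hivt := intermediate_value_Icc' (zero_le_one (α := ℝ)) hcont.continuousOn
  obtain ⟨t, -, ht⟩ := hivt ⟨h1, h0⟩
  refine ⟨t • k₀, Complex.ext ht ?_⟩
  rw [hat_im_radial (vA_integrable A) (vA_radial A)]
  rfl

end Pool.Agent.W793.BE
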