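import Pool.Agent.W793.BE.Mass

/-!
# The Big Equation has no solution at large density
-/

set_option autoImplicit false

open MeasureTheory Filter Topology
open scoped ContDiff Laplacian InnerProductSpace RealInnerProductSpace

namespace Pool.Agent.W793.BE

open Pool.Agent.H532R3.ME

variable {d : ℕ} {m ρ B : ℝ} {v u : E d → ℝ}

lemma hat_norm_le' {f : E d → ℝ} (h0 : ∀ x, 0 ≤ f x) (k : E d) : ‖hat f k‖ ≤ ∫ x, f x :=
  hat_norm_le (Eventually.of_forall h0) k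

lemma Dat.hatP (h : Dat B v u) (k : E d) :
    ‖hat (fun x => u x * KK v u x) k‖ ≤ B * (∫ x, u x) ^ 2 :=
  (hat_norm_le' h.uK0 k).trans h.kap

lemma Dat.hatQ (h : Dat B v u) (k : E d) :
    ‖hat (fun x => u x * LL v u x) k‖ ≤ B * (∫ x, u x) ^ 3 := by
  rw [hat_eq]
  refine (norm_integral_le_integral_norm _).trans ?_
  have e : ∀ x : E d, ‖Complex.exp ((-(⟪k, x⟫ : ℝ) : ℂ) * Complex.I) * ((u x * LL v u x : ℝ) : ℂ)‖ =
      |u x * LL v u x| := by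
    intro x
    rw [norm_mul, Complex.norm_real, ← Complex.ofReal_neg, Complex.norm_exp_ofReal_mul_I, one_mul,
      Real.norm_eq_abs]
  simp_rw [e]
  calc ∫ x, |u x * LL v u x| ≤ ∫ x, (B * (∫ y, u y) ^ 2) * u x := by
        apply integral_mono h.uLi.abs (h.ui.const_mul _)
        intro x
        simp only
        rw [abs_mul, abs_of_nonneg (h.u0 x)]
        have := mul_le_mul_of_nonneg_left (h.LB x) (h.u0 x)
        linarith
    _ = _ := by rw [integral_const_mul]; ring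

lemma Dat.hatS (h : Dat B v u) (k : E d) : ‖hat (SS v u) k - hat v k‖ ≤ B * ∫ x, u x := by
  have i1 := uv_integrable h.vi h.ui (Eventually.of_forall fun x => ⟨h.u0 x, h.u1 x⟩)
  have e1 : SS v u = fun x => v x - u x * v x := by funext x; unfold SS; ring
  rw [e1, hat_sub h.vi i1, sub_sub_cancel_left, norm_neg]
  refine (hat_norm_le' (fun x => mul_nonneg (h.u0 x) (h.v0 x)) k).trans ?_
  rw [← integral_const_mul]
  apply integral_mono i1 (h.ui.const_mul B)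
  intro x
  have := mul_le_mul_of_nonneg_left (h.vB x) (h.u0 x)
  simp only
  linarith

/-- wave vectors where the transform of the potential is large -/
lemma Big.near (h : Big m ρ B v u) {V : ℝ} (hV : 0 < V) (hJ2 : ρ * ∫ x, u x ≤ 2)
    (hρ : 8 * B ≤ ρ * V) {k : E d} (hk1 : ‖k‖ ≤ 1) (hk : 3 * V / 4 ≤ ‖hat v k‖) :
    ‖1 - ρ * hat u k‖ ^ 2 ≤ (4 / m + 64 * B) / V / ρ := by
  have hρ0 := h.rpos
  have hm := h.mpos
  have hB := h.Bpos
  set J := ∫ x, u x with hJ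
  have hJ0 : 0 ≤ J := h.J0
  set z : ℂ := 1 - ρ * hat u k with hz
  have hu : ‖hat u k‖ ≤ J := hat_norm_le' h.u0 k
  have hz3 : ‖z‖ ≤ 3 := by
    rw [hz]
    refine (norm_sub_le _ _).trans ?_
    rw [norm_one, norm_mul, Complex.norm_real, Real.norm_eq_abs, abs_of_pos hρ0]
    have := mul_le_mul_of_nonneg_left hu hρ0.le
    linarith
  have hz0 := norm_nonneg z
  have hS : V / 2 ≤ ‖hat (SS v u) k‖ := by
    have h1 := h.hatS k
    have h2 : ‖hat v k‖ ≤ ‖hat (SS v u) k‖ + ‖hat (SS v u) k - hat v k‖ := by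
      have := norm_sub_le (hat (SS v u) k) (hat (SS v u) k - hat v k)
      rwa [sub_sub_cancel] at this
    have h3 : B * J ≤ V / 4 := by
      have : ρ * (B * J) ≤ ρ * (V / 4) := by nlinarith
      exact le_of_mul_le_mul_left this hρ0
    linarith
  have heq : hat (SS v u) k * z ^ 2 = ((1 / m * ‖k‖ ^ 2 : ℝ) : ℂ) * hat u k -
      2 * ρ * z * hat (fun x => u x * KK v u x) k + ρ ^ 2 * hat (fun x => u x * LL v u x) k := by
    rw [h.four k]; ring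
  have hn := congrArg norm heq
  rw [norm_mul, norm_pow] at hn
  have b1 : ‖((1 / m * ‖k‖ ^ 2 : ℝ) : ℂ) * hat u k‖ ≤ 1 / m * J := by
    rw [norm_mul, Complex.norm_real, Real.norm_eq_abs, abs_of_nonneg (by positivity)]
    have h1 : ‖k‖ ^ 2 ≤ 1 := pow_le_one₀ (norm_nonneg _) hk1
    calc 1 / m * ‖k‖ ^ 2 * ‖hat u k‖ ≤ 1 / m * 1 * J := by gcongr
      _ = _ := by ring
  have b2 : ‖2 * (ρ : ℂ) * z * hat (fun x => u x * KK v u x) k‖ ≤ 2 * ρ * 3 * (B * J ^ 2) := by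
    rw [norm_mul, norm_mul, norm_mul, Complex.norm_real, Real.norm_eq_abs, abs_of_pos hρ0,
      Complex.norm_ofNat]
    have := h.hatP k
    gcongr
  have b3 : ‖(ρ : ℂ) ^ 2 * hat (fun x => u x * LL v u x) k‖ ≤ ρ ^ 2 * (B * J ^ 3) := by
    rw [norm_mul, norm_pow, Complex.norm_real, Real.norm_eq_abs, abs_of_pos hρ0]
    have := h.hatQ k
    gcongr
  have b4 : ‖hat (SS v u) k‖ * ‖z‖ ^ 2 ≤ 1 / m * J + 2 * ρ * 3 * (B * J ^ 2) + ρ ^ 2 * (B * J ^ 3) := by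
    rw [hn]
    refine (norm_add_le _ _).trans (add_le_add ((norm_sub_le _ _).trans (add_le_add b1 b2)) b3)
  have b5 : V / 2 * ‖z‖ ^ 2 ≤ ‖hat (SS v u) k‖ * ‖z‖ ^ 2 :=
    mul_le_mul_of_nonneg_right hS (sq_nonneg _)
  have c1 : ρ * (1 / m * J) ≤ 2 / m := by
    calc ρ * (1 / m * J) = 1 / m * (ρ * J) := by ring
      _ ≤ 1 / m * 2 := by gcongr
      _ = 2 / m := by ring
  have c2 : ρ * (2 * ρ * 3 * (B * J ^ 2)) ≤ 24 * B := by
    have : (ρ * J) ^ 2 ≤ 2 ^ 2 := pow_le_pow_left₀ (by positivity) hJ2 2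
    calc ρ * (2 * ρ * 3 * (B * J ^ 2)) = 6 * B * (ρ * J) ^ 2 := by ring
      _ ≤ 6 * B * 2 ^ 2 := by gcongr
      _ = _ := by ring
  have c3 : ρ * (ρ ^ 2 * (B * J ^ 3)) ≤ 8 * B := by
    have : (ρ * J) ^ 3 ≤ 2 ^ 3 := pow_le_pow_left₀ (by positivity) hJ2 3
    calc ρ * (ρ ^ 2 * (B * J ^ 3)) = B * (ρ * J) ^ 3 := by ring
      _ ≤ B * 2 ^ 3 := by gcongr
      _ = _ := by ring
  have c4 : ρ * (V / 2 * ‖z‖ ^ 2) ≤ 2 / m + 32 * B := by
    have := mul_le_mul_of_nonneg_left (b5.trans b4) hρ0.le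
    nlinarith
  rw [div_div, le_div_iff₀ (by positivity)]
  have c5 : 2 * (2 / m) = 4 / m := by ring
  nlinarith

/-- all wave vectors -/
lemma Big.far (h : Big m ρ B v u) {V δ : ℝ} (hV : 0 < V) (hJ2 : ρ * ∫ x, u x ≤ 2)
    (hρ : 8 * B ≤ ρ * V) (hδ : 0 < δ) (hδ1 : δ ≤ 1) (hnear : ∀ k : E d, ‖k‖ ≤ δ → 3 * V / 4 ≤ ‖hat v k‖)
    (k : E d) {n : ℕ} (hn : 1 ≤ n) (hkn : ‖k‖ ≤ n * δ) :
    |1 - ρ * ∫ x, u x| ≤ √((4 / m + 64 * B) / V / ρ) ∧
    ρ * ‖df u k‖ ≤ 4 * n ^ 2 * √((4 / m + 64 * B) / V / ρ) ∧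
    ‖1 - ρ * hat u k‖ ≤ 5 * n ^ 2 * √((4 / m + 64 * B) / V / ρ) := by
  have hρ0 := h.rpos
  set J := ∫ x, u x with hJ
  set y := √((4 / m + 64 * B) / V / ρ) with hy
  have hy0 : 0 ≤ y := Real.sqrt_nonneg _
  have key : ∀ k : E d, ‖k‖ ≤ δ → ‖1 - ρ * hat u k‖ ≤ y := by
    intro k hk
    have h1 := h.near hV hJ2 hρ (hk.trans hδ1) (hnear k hk)
    exact Real.le_sqrt_of_sq_le h1
  have h0 : |1 - ρ * J| ≤ y := by
    have h1 := key 0 (by simpa using hδ.le)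
    rw [hat_zero h.ui, ← hJ] at h1
    have h2 : (1 : ℂ) - ρ * ((J : ℝ) : ℂ) = ((1 - ρ * J : ℝ) : ℂ) := by push_cast; ring
    rwa [h2, Complex.norm_real, Real.norm_eq_abs] at h1
  have hdf : ∀ k : E d, (ρ : ℂ) * df u k = ((ρ * J - 1 : ℝ) : ℂ) + (1 - ρ * hat u k) := by
    intro k
    unfold df
    push_cast
    ring
  have hdfn : ∀ k : E d, ρ * ‖df u k‖ ≤ |1 - ρ * J| + ‖1 - ρ * hat u k‖ := by
    intro k
    have h1 := congrArg norm (hdf k)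
    rw [norm_mul, Complex.norm_real, Real.norm_eq_abs, abs_of_pos hρ0] at h1
    rw [h1]
    refine (norm_add_le _ _).trans ?_
    rw [Complex.norm_real, Real.norm_eq_abs, abs_sub_comm]
  have hdfn' : ∀ k : E d, ‖1 - ρ * hat u k‖ ≤ |1 - ρ * J| + ρ * ‖df u k‖ := by
    intro k
    have h1 : (1 : ℂ) - ρ * hat u k = ((1 - ρ * J : ℝ) : ℂ) + ρ * df u k := by
      rw [hdf]; push_cast; ring
    rw [h1]
    refine (norm_add_le _ _).trans ?_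
    rw [norm_mul, Complex.norm_real, Complex.norm_real, Real.norm_eq_abs, Real.norm_eq_abs,
      abs_of_pos hρ0]
  have hn0 : (0 : ℝ) < n := by exact_mod_cast hn
  have hn1 : (1 : ℝ) ≤ n := by exact_mod_cast hn
  set k' : E d := (n : ℝ)⁻¹ • k with hk'
  have hkk : (n : ℝ) • k' = k := by rw [hk', smul_smul, mul_inv_cancel₀ hn0.ne', one_smul]
  have hk'δ : ‖k'‖ ≤ δ := by
    rw [hk', norm_smul, norm_inv, Real.norm_eq_abs, abs_of_pos hn0, inv_mul_le_iff₀ hn0]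
    exact hkn
  have h1 : ρ * ‖df u k'‖ ≤ 2 * y := by
    have := hdfn k'
    have := key k' hk'δ
    linarith
  have h2 := krein h.ui h.u0 n k'
  rw [hkk, ← df_re h.ui] at h2
  have h3 : (df u k').re ≤ ‖df u k'‖ := (le_abs_self _).trans (re_le_norm _)
  have h4 : ‖df u k‖ ≤ 2 * n ^ 2 * ‖df u k'‖ := by
    have h5 : (n : ℝ) ^ 2 * (df u k').re ≤ n ^ 2 * ‖df u k'‖ :=
      mul_le_mul_of_nonneg_left h3 (by positivity)
    have h6 : (n : ℝ) * ‖df u k'‖ ≤ n ^ 2 * ‖df u k'‖ := by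
      apply mul_le_mul_of_nonneg_right _ (norm_nonneg _)
      nlinarith
    linarith
  have h7 : ρ * ‖df u k‖ ≤ 4 * n ^ 2 * y := by
    have h8 := mul_le_mul_of_nonneg_left h4 hρ0.le
    have h9 : (n : ℝ) ^ 2 * (ρ * ‖df u k'‖) ≤ n ^ 2 * (2 * y) :=
      mul_le_mul_of_nonneg_left h1 (by positivity)
    nlinarith
  refine ⟨h0, h7, ?_⟩
  have h8 := hdfn' k
  have h9 : y ≤ n ^ 2 * y := by
    have : (1 : ℝ) ≤ n ^ 2 := one_le_pow₀ hn1
    nlinarith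
  linarith

/-- the final inequality -/
lemma Big.final (h : Big m ρ B v u) {V δ : ℝ} (hV : 0 < V) (hJ2 : ρ * ∫ x, u x ≤ 2)
    (hρ : 8 * B ≤ ρ * V) (hδ : 0 < δ) (hδ1 : δ ≤ 1) (hnear : ∀ k : E d, ‖k‖ ≤ δ → 3 * V / 4 ≤ ‖hat v k‖)
    (k : E d) {n : ℕ} (hn : 1 ≤ n) (hkn : ‖k‖ ≤ n * δ) :
    1 / m * ‖k‖ ^ 2 ≤ 25 * n ^ 4 * ((4 / m + 64 * B) / V) * ‖hat v k‖ +
      (1 / m * ‖k‖ ^ 2 * (5 * n ^ 2) + 56 * B * n ^ 2 + 8 * B) * √((4 / m + 64 * B) / V / ρ) +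
      50 * B * n ^ 4 * ((4 / m + 64 * B) / V) / ρ := by
  obtain ⟨f1, f2, f3⟩ := h.far hV hJ2 hρ hδ hδ1 hnear k hn hkn
  have hρ0 := h.rpos
  have hm := h.mpos
  have hB := h.Bpos
  set J := ∫ x, u x with hJ
  have hJ0 : 0 ≤ J := h.J0
  set Ca := (4 / m + 64 * B) / V with hCa
  have hCa0 : 0 < Ca := by positivity
  set y := √(Ca / ρ) with hy
  have hy0 : 0 ≤ y := Real.sqrt_nonneg _
  have hy2 : y ^ 2 = Ca / ρ := Real.sq_sqrt (by positivity)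
  set z : ℂ := 1 - ρ * hat u k with hz
  have hz0 := norm_nonneg z
  set P : E d → ℝ := fun x => u x * KK v u x with hP
  set Q : E d → ℝ := fun x => u x * LL v u x with hQ
  set κ := ∫ x, P x with hκ
  set q := ∫ x, Q x with hq
  set s := ∫ x, SS v u x with hs
  have hκ0 : 0 ≤ κ := integral_nonneg h.uK0
  have hs0 : 0 ≤ s := integral_nonneg h.S0
  have hκle : κ ≤ B * J ^ 2 := h.kap
  have hρJ0 : 0 ≤ ρ * J := by positivity
  have hρJ2 : (ρ * J) ^ 2 ≤ 4 := by nlinarith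
  have hρκ : ρ ^ 2 * κ ≤ 4 * B := by
    calc ρ ^ 2 * κ ≤ ρ ^ 2 * (B * J ^ 2) := by gcongr
      _ = B * (ρ * J) ^ 2 := by ring
      _ ≤ B * 4 := by gcongr
      _ = _ := by ring
  -- equation times ρ
  have heq : ((1 / m * ‖k‖ ^ 2 : ℝ) : ℂ) * (ρ * hat u k) = ρ * (hat (SS v u) k * z ^ 2) +
      2 * ρ ^ 2 * z * hat P k - ρ ^ 3 * hat Q k := by
    have h4 := h.four k
    linear_combination ρ * h4
  have hre := congrArg Complex.re heq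
  -- left side
  have hl : (((1 / m * ‖k‖ ^ 2 : ℝ) : ℂ) * (ρ * hat u k)).re = 1 / m * ‖k‖ ^ 2 * (1 - z.re) := by
    have : (ρ : ℂ) * hat u k = 1 - z := by rw [hz]; ring
    rw [this, Complex.re_ofReal_mul, Complex.sub_re, Complex.one_re]
  have hzre : z.re ≤ 5 * n ^ 2 * y := ((le_abs_self _).trans (re_le_norm _)).trans f3
  -- right side
  have t1 : ((ρ : ℂ) * (hat (SS v u) k * z ^ 2)).re ≤ 25 * n ^ 4 * Ca * ‖hat v k‖ +
      50 * B * n ^ 4 * Ca / ρ := by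
    rw [Complex.re_ofReal_mul]
    have g1 : (hat (SS v u) k * z ^ 2).re ≤ ‖hat (SS v u) k‖ * ‖z‖ ^ 2 := by
      refine ((le_abs_self _).trans (re_le_norm _)).trans (le_of_eq ?_)
      rw [norm_mul, norm_pow]
    have g2 : ‖hat (SS v u) k‖ ≤ ‖hat v k‖ + B * J := by
      have h1 := h.hatS k
      have h2 := norm_add_le (hat (SS v u) k - hat v k) (hat v k)
      rw [sub_add_cancel] at h2
      linarith
    have g3 : ‖z‖ ^ 2 ≤ 25 * n ^ 4 * (Ca / ρ) := by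
      calc ‖z‖ ^ 2 ≤ (5 * n ^ 2 * y) ^ 2 := pow_le_pow_left₀ hz0 f3 2
        _ = 25 * n ^ 4 * y ^ 2 := by ring
        _ = _ := by rw [hy2]
    have g4 : ‖hat (SS v u) k‖ * ‖z‖ ^ 2 ≤ (‖hat v k‖ + B * J) * (25 * n ^ 4 * (Ca / ρ)) :=
      mul_le_mul g2 g3 (by positivity) (by positivity)
    have g5 : ρ * (hat (SS v u) k * z ^ 2).re ≤ ρ * ((‖hat v k‖ + B * J) * (25 * n ^ 4 * (Ca / ρ))) :=
      mul_le_mul_of_nonneg_left (g1.trans g4) hρ0.le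
    refine g5.trans ?_
    have g6 : ρ * ((‖hat v k‖ + B * J) * (25 * n ^ 4 * (Ca / ρ))) =
        25 * n ^ 4 * Ca * ‖hat v k‖ + (25 * B * n ^ 4 * Ca) * J := by
      field_simp
    rw [g6]
    have g7 : J ≤ 2 / ρ := by rw [le_div_iff₀ hρ0]; linarith
    have g8 : (25 * B * n ^ 4 * Ca) * J ≤ (25 * B * n ^ 4 * Ca) * (2 / ρ) :=
      mul_le_mul_of_nonneg_left g7 (by positivity)
    have g9 : (25 * B * n ^ 4 * Ca) * (2 / ρ) = 50 * B * n ^ 4 * Ca / ρ := by ring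
    linarith
  have t2 : (2 * (ρ : ℂ) ^ 2 * z * hat P k).re ≤ 40 * B * n ^ 2 * y := by
    refine ((le_abs_self _).trans (re_le_norm _)).trans ?_
    rw [norm_mul, norm_mul, norm_mul, norm_pow, Complex.norm_real, Real.norm_eq_abs,
      abs_of_pos hρ0, Complex.norm_ofNat]
    have g1 : ‖hat P k‖ ≤ κ := hat_norm_le' h.uK0 k
    calc 2 * ρ ^ 2 * ‖z‖ * ‖hat P k‖ ≤ 2 * ρ ^ 2 * ‖z‖ * κ := by gcongr
      _ = 2 * ‖z‖ * (ρ ^ 2 * κ) := by ring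
      _ ≤ 2 * (5 * n ^ 2 * y) * (4 * B) := by gcongr
      _ = _ := by ring
  have t3 : -((ρ : ℂ) ^ 3 * hat Q k).re ≤ 16 * B * n ^ 2 * y + 8 * B * y := by
    have e1 : (ρ : ℂ) ^ 3 * hat Q k = ((ρ ^ 3 : ℝ) : ℂ) * hat Q k := by push_cast; ring
    rw [e1, Complex.re_ofReal_mul, hat_eq_df Q k, Complex.sub_re, Complex.ofReal_re, ← hq]
    have g1 : |(df Q k).re| ≤ B * J ^ 2 * ‖df u k‖ := by
      refine (h.reQ k).trans ?_
      have hc := conv_integrable h.ui h.Ki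
      have i1 : Integrable (fun x => u x * conv u (KK v u) x) := by
        refine hc.bdd_mul (c := 1) h.ui.aestronglyMeasurable ?_
        filter_upwards with x
        rw [Real.norm_eq_abs, abs_of_nonneg (h.u0 x)]
        exact h.u1 x
      calc ∫ x, (u x * conv u (KK v u) x) * oc k x ≤ ∫ x, (B * J ^ 2) * (u x * oc k x) := by
            apply integral_mono (integrable_mul_oc i1 k) ((integrable_mul_oc h.ui k).const_mul _)
            intro x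
            simp only
            have := mul_le_mul_of_nonneg_left (h.PB x) (mul_nonneg (h.u0 x) (oc_nonneg k x))
            linarith
        _ = B * J ^ 2 * (df u k).re := by rw [integral_const_mul, df_re h.ui]
        _ ≤ B * J ^ 2 * ‖df u k‖ := by
            apply mul_le_mul_of_nonneg_left ((le_abs_self _).trans (re_le_norm _)) (by positivity)
    have g2 : ρ ^ 3 * (df Q k).re ≤ 16 * B * n ^ 2 * y := by
      calc ρ ^ 3 * (df Q k).re ≤ ρ ^ 3 * (B * J ^ 2 * ‖df u k‖) := by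
            apply mul_le_mul_of_nonneg_left ((le_abs_self _).trans g1) (by positivity)
        _ = B * (ρ * J) ^ 2 * (ρ * ‖df u k‖) := by ring
        _ ≤ B * 4 * (4 * n ^ 2 * y) := by gcongr
        _ = _ := by ring
    have hz := h.zero
    rw [← hJ, ← hs] at hz
    have g3 : ρ ^ 2 * q = s * (1 - ρ * J) ^ 2 + 2 * ρ * (1 - ρ * J) * κ := by
      have : 0 = s * (1 - ρ * J) ^ 2 + 2 * ρ * (1 - ρ * J) * κ - ρ ^ 2 * q := hz
      linarith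
    have g4 : -(ρ ^ 3 * q) ≤ 8 * B * y := by
      have e2 : ρ ^ 3 * q = ρ * (s * (1 - ρ * J) ^ 2) + 2 * (1 - ρ * J) * (ρ ^ 2 * κ) := by
        have : ρ ^ 3 * q = ρ * (ρ ^ 2 * q) := by ring
        rw [this, g3]; ring
      have e3 : 0 ≤ ρ * (s * (1 - ρ * J) ^ 2) := by positivity
      have e4 : -(2 * (1 - ρ * J) * (ρ ^ 2 * κ)) ≤ 2 * y * (4 * B) := by
        have e5 : -(1 - ρ * J) ≤ y := (neg_le_abs _).trans f1
        have e6 : 0 ≤ ρ ^ 2 * κ := by positivity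
        calc -(2 * (1 - ρ * J) * (ρ ^ 2 * κ)) = 2 * (-(1 - ρ * J)) * (ρ ^ 2 * κ) := by ring
          _ ≤ 2 * y * (ρ ^ 2 * κ) := by gcongr
          _ ≤ 2 * y * (4 * B) := by gcongr
      linarith
    linarith
  rw [hl] at hre
  have hre2 : (ρ * (hat (SS v u) k * z ^ 2) + 2 * (ρ : ℂ) ^ 2 * z * hat P k -
      (ρ : ℂ) ^ 3 * hat Q k).re = ((ρ : ℂ) * (hat (SS v u) k * z ^ 2)).re +
      (2 * (ρ : ℂ) ^ 2 * z * hat P k).re - ((ρ : ℂ) ^ 3 * hat Q k).re := by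
    rw [Complex.sub_re, Complex.add_re]
  rw [hre2] at hre
  have hkm : 0 ≤ 1 / m * ‖k‖ ^ 2 := by positivity
  have g := mul_le_mul_of_nonneg_left hzre hkm
  nlinarith

/-- **No solution at large density.** -/
theorem none (hd : 1 ≤ d) {B c m : ℝ} (hB : 0 < B) (hc : 0 < c) (hm : 0 < m) {v : E d → ℝ}
    (hv : Integrable v) (hv0 : ∀ x, 0 ≤ v x) (hvB : ∀ x, v x ≤ B)
    (hinf : ¬ Integrable (fun x => ‖x‖ ^ 2 * v x)) (hlow : ∀ x, c ≤ v x * (1 + ‖x‖) ^ (2 * d))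
    (hZ : ∀ ε : ℝ, 0 < ε → ∃ k : E d, ‖hat v k‖ * (1 + ‖k‖ ^ 2) ^ 2 ≤ ε * ‖k‖ ^ 2) :
    ∃ ρ₀ : ℝ, 0 < ρ₀ ∧ ∀ ρ : ℝ, ρ₀ ≤ ρ → ¬ ∃ u : E d → ℝ, IsBigSolution m ρ v u := by
  have hvpos : ∀ x, 0 < v x := by
    intro x
    have h1 := hlow x
    have h2 : 0 < (1 + ‖x‖) ^ (2 * d) := by positivity
    by_contra h3
    push Not at h3
    nlinarith [hv0 x]
  have hV : 0 < ∫ x, v x := by
    rw [integral_pos_iff_support_of_nonneg hv0 hv]
    have : Function.support v = Set.univ := by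
      ext x; simp [(hvpos x).ne']
    rw [this]
    exact Measure.measure_univ_pos.2 (by
      intro h
      exact (NeZero.ne (volume : Measure (E d))) h)
  set V := ∫ x, v x with hVdef
  obtain ⟨ρ₁, hρ₁, hmass⟩ := mass hd hB hc hinf hV hlow
  -- near the origin
  obtain ⟨δ, hδ, hδ1, hnear⟩ : ∃ δ : ℝ, 0 < δ ∧ δ ≤ 1 ∧ ∀ k : E d, ‖k‖ ≤ δ → 3 * V / 4 ≤ ‖hat v k‖ := by
    have h1 : Continuous fun k : E d => ‖hat v k‖ := continuous_norm.comp (hat_continuous hv)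
    have h2 : ‖hat v (0 : E d)‖ = V := by
      rw [hat_zero hv, Complex.norm_real, Real.norm_eq_abs, abs_of_pos hV]
    have h3 : ∀ᶠ k : E d in 𝓝 0, 3 * V / 4 < ‖hat v k‖ := by
      apply h1.continuousAt.eventually (lt_mem_nhds _)
      change 3 * V / 4 < ‖hat v (0 : E d)‖
      rw [h2]; linarith
    obtain ⟨δ, hδ, h4⟩ := Metric.eventually_nhds_iff.1 h3
    refine ⟨min (δ / 2) 1, lt_min (by positivity) one_pos, min_le_right _ _, fun k hk => ?_⟩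
    apply (h4 _).le
    rw [dist_zero_right]
    exact lt_of_le_of_lt (hk.trans (min_le_left _ _)) (by linarith)
  set Ca := (4 / m + 64 * B) / V with hCa
  have hCa0 : 0 < Ca := by positivity
  obtain ⟨k, hk⟩ := hZ (δ ^ 4 / (200 * m * Ca)) (by positivity)
  have hk0 : 0 < ‖k‖ := by
    rcases eq_or_lt_of_le (norm_nonneg k) with h1 | h1
    · exfalso
      have h2 : k = 0 := norm_eq_zero.1 h1.symm
      rw [h2, norm_zero, hat_zero hv, Complex.norm_real, Real.norm_eq_abs, abs_of_pos hV] at hk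
      norm_num at hk
      linarith
    · exact h1
  obtain ⟨n, hn1, hn2, hn3⟩ : ∃ n : ℕ, 1 ≤ n ∧ ‖k‖ ≤ n * δ ∧ (n : ℝ) ≤ (1 + ‖k‖) / δ := by
    refine ⟨⌈‖k‖ / δ⌉₊, Nat.one_le_iff_ne_zero.2 (Nat.ceil_pos.2 (by positivity)).ne', ?_, ?_⟩
    · have := Nat.le_ceil (‖k‖ / δ)
      rwa [div_le_iff₀ hδ] at this
    · have h1 := Nat.ceil_lt_add_one (show 0 ≤ ‖k‖ / δ by positivity)
      have h2 : ‖k‖ / δ + 1 ≤ (1 + ‖k‖) / δ := by
        rw [add_div, add_comm]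
        have : 1 ≤ 1 / δ := by rw [le_div_iff₀ hδ]; linarith
        linarith
      exact h1.le.trans h2
  have hn4 : (n : ℝ) ^ 4 * δ ^ 4 ≤ 4 * (1 + ‖k‖ ^ 2) ^ 2 := by
    have h1 : (n : ℝ) * δ ≤ 1 + ‖k‖ := by rwa [le_div_iff₀ hδ] at hn3
    have h2 : ((n : ℝ) * δ) ^ 4 ≤ (1 + ‖k‖) ^ 4 := pow_le_pow_left₀ (by positivity) h1 4
    have h3 : (1 + ‖k‖) ^ 2 ≤ 2 * (1 + ‖k‖ ^ 2) := by nlinarith [sq_nonneg (1 - ‖k‖)]
    have h4 : ((1 + ‖k‖) ^ 2) ^ 2 ≤ (2 * (1 + ‖k‖ ^ 2)) ^ 2 := pow_le_pow_left₀ (by positivity) h3 2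
    calc (n : ℝ) ^ 4 * δ ^ 4 = ((n : ℝ) * δ) ^ 4 := by ring
      _ ≤ (1 + ‖k‖) ^ 4 := h2
      _ = ((1 + ‖k‖) ^ 2) ^ 2 := by ring
      _ ≤ _ := h4.trans (le_of_eq (by ring))
  have hmainterm : 25 * n ^ 4 * Ca * ‖hat v k‖ ≤ 1 / m * ‖k‖ ^ 2 / 2 := by
    have h1 : (n : ℝ) ^ 4 * ‖hat v k‖ * δ ^ 4 ≤ 4 * (δ ^ 4 / (200 * m * Ca) * ‖k‖ ^ 2) := by
      calc (n : ℝ) ^ 4 * ‖hat v k‖ * δ ^ 4 = (n ^ 4 * δ ^ 4) * ‖hat v k‖ := by ring
        _ ≤ (4 * (1 + ‖k‖ ^ 2) ^ 2) * ‖hat v k‖ := by gcongr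
        _ = 4 * (‖hat v k‖ * (1 + ‖k‖ ^ 2) ^ 2) := by ring
        _ ≤ _ := by gcongr
    have h2 : (n : ℝ) ^ 4 * ‖hat v k‖ ≤ 4 / (200 * m * Ca) * ‖k‖ ^ 2 := by
      have h3 : (0 : ℝ) < δ ^ 4 := by positivity
      have h4 : 4 * (δ ^ 4 / (200 * m * Ca) * ‖k‖ ^ 2) = (4 / (200 * m * Ca) * ‖k‖ ^ 2) * δ ^ 4 := by
        ring
      rw [h4] at h1
      exact le_of_mul_le_mul_right h1 h3
    calc 25 * n ^ 4 * Ca * ‖hat v k‖ = 25 * Ca * (n ^ 4 * ‖hat v k‖) := by ring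
      _ ≤ 25 * Ca * (4 / (200 * m * Ca) * ‖k‖ ^ 2) := by gcongr
      _ = 1 / m * ‖k‖ ^ 2 / 2 := by field_simp; ring
  -- large density
  set E1 := 1 / m * ‖k‖ ^ 2 * (5 * n ^ 2) + 56 * B * n ^ 2 + 8 * B with hE1
  set E2 := 50 * B * n ^ 4 * Ca with hE2
  have hlim : Tendsto (fun ρ : ℝ => E1 * √(Ca / ρ) + E2 / ρ) atTop (𝓝 0) := by
    have h1 : Tendsto (fun ρ : ℝ => Ca / ρ) atTop (𝓝 0) := tendsto_const_nhds.div_atTop tendsto_id
    have h2 : Tendsto (fun ρ : ℝ => √(Ca / ρ)) atTop (𝓝 0) := by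
      have := (Real.continuous_sqrt.tendsto 0).comp h1
      simpa [Function.comp_def] using this
    have h3 : Tendsto (fun ρ : ℝ => E2 / ρ) atTop (𝓝 0) := tendsto_const_nhds.div_atTop tendsto_id
    have h4 := (h2.const_mul E1).add h3
    simpa using h4
  have hkm : 0 < 1 / m * ‖k‖ ^ 2 / 2 := by positivity
  obtain ⟨ρ₂, hρ₂⟩ := (hlim.eventually (gt_mem_nhds hkm)).exists_forall_of_atTop
  refine ⟨max ρ₁ (max ρ₂ (8 * B / V)), lt_max_of_lt_left hρ₁, fun ρ hρ hex => ?_⟩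
  have hρ1 : ρ₁ ≤ ρ := (le_max_left _ _).trans hρ
  have hρ2 : ρ₂ ≤ ρ := ((le_max_left _ _).trans (le_max_right _ _)).trans hρ
  have hρ3 : 8 * B / V ≤ ρ := ((le_max_right _ _).trans (le_max_right _ _)).trans hρ
  have hρ0 : 0 < ρ := lt_of_lt_of_le hρ₁ hρ1
  obtain ⟨u₀, hu₀⟩ := hex
  obtain ⟨u, hu⟩ := big_of_solution hm hρ0 hB hv hv0 hvB hu₀
  have hJ2 := hmass m ρ u hρ1 hu
  rw [div_le_iff₀ hV] at hρ3
  have hf := hu.final hV hJ2 hρ3 hδ hδ1 hnear k hn1 hn2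
  have hs := hρ₂ ρ hρ2
  rw [← hCa] at hf
  have hf2 : 1 / m * ‖k‖ ^ 2 ≤ 25 * n ^ 4 * Ca * ‖hat v k‖ + E1 * √(Ca / ρ) + E2 / ρ := hf
  linarith

end Pool.Agent.W793.BE
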