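import Pool.Agent.W793.BE.Ana

/-!
# The Big Equation on the Fourier side
-/

set_option autoImplicit false

open MeasureTheory Filter Topology
open scoped ContDiff Laplacian InnerProductSpace RealInnerProductSpace

namespace Pool.Agent.W793.BE

open Pool.Agent.H532R3.ME

variable {d : ℕ}

/-- A bounded potential and a function `u` with values in `[0, 1]` everywhere. -/
structure Dat (B : ℝ) (v u : E d → ℝ) : Prop where
  vi : Integrable v
  v0 : ∀ x, 0 ≤ v x
  vB : ∀ x, v x ≤ B
  Bpos : 0 < B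
  ui : Integrable u
  u0 : ∀ x, 0 ≤ u x
  u1 : ∀ x, u x ≤ 1

/-- The real data `J = ∫ u`, `s = ∫ S`, ... and the equation on the Fourier side. -/
structure Big (m ρ B : ℝ) (v u : E d → ℝ) : Prop extends Dat B v u where
  mpos : 0 < m
  rpos : 0 < ρ
  four : ∀ k : E d, ((1 / m * ‖k‖ ^ 2 : ℝ) : ℂ) * hat u k =
    hat (SS v u) k * (1 - ρ * hat u k) ^ 2 +
      2 * ρ * (1 - ρ * hat u k) * hat (fun x => u x * KK v u x) k -
      ρ ^ 2 * hat (fun x => u x * LL v u x) k

section basic

variable {B : ℝ} {v u : E d → ℝ}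

lemma Dat.S0 (h : Dat B v u) (x : E d) : 0 ≤ SS v u x := by
  unfold SS
  exact mul_nonneg (by linarith [h.u1 x]) (h.v0 x)

lemma Dat.SB (h : Dat B v u) (x : E d) : SS v u x ≤ B := by
  unfold SS
  nlinarith [h.u0 x, h.u1 x, h.v0 x, h.vB x]

lemma Dat.Si (h : Dat B v u) : Integrable (SS v u) :=
  S_integrable h.vi h.ui (Eventually.of_forall fun x => ⟨h.u0 x, h.u1 x⟩)

lemma Dat.Ki (h : Dat B v u) : Integrable (KK v u) := conv_integrable h.ui h.Si

lemma Dat.K0 (h : Dat B v u) (x : E d) : 0 ≤ KK v u x := conv_nonneg h.u0 h.S0 x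

lemma Dat.KB (h : Dat B v u) (x : E d) : KK v u x ≤ B * ∫ y, u y :=
  conv_le h.ui h.u0 h.Si.aestronglyMeasurable h.S0 h.SB x

lemma Dat.J0 (h : Dat B v u) : 0 ≤ ∫ y, u y := integral_nonneg h.u0

lemma Dat.uKi (h : Dat B v u) : Integrable (fun x => u x * KK v u x) := by
  refine h.Ki.bdd_mul (c := 1) h.ui.aestronglyMeasurable ?_
  filter_upwards with x
  rw [Real.norm_eq_abs, abs_of_nonneg (h.u0 x)]
  exact h.u1 x

lemma Dat.uK0 (h : Dat B v u) (x : E d) : 0 ≤ u x * KK v u x := mul_nonneg (h.u0 x) (h.K0 x)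

lemma Dat.uKle (h : Dat B v u) (x : E d) : u x * KK v u x ≤ KK v u x := by
  nlinarith [h.u0 x, h.u1 x, h.K0 x]

lemma Dat.Li (h : Dat B v u) : Integrable (LL v u) :=
  (conv_integrable h.ui h.Ki).sub ((conv_integrable h.ui h.uKi).const_mul 2)

/-- `|L| ≤ u * K` -/
lemma Dat.Labs (h : Dat B v u) (x : E d) : |LL v u x| ≤ conv u (KK v u) x := by
  have hK : ∀ x, |KK v u x| ≤ B * ∫ y, u y := fun x => by
    rw [abs_of_nonneg (h.K0 x)]; exact h.KB x
  have huK : ∀ x, |u x * KK v u x| ≤ B * ∫ y, u y := fun x => by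
    rw [abs_of_nonneg (h.uK0 x)]; exact (h.uKle x).trans (h.KB x)
  have i1 := integrable_conv_integrand h.ui h.Ki.aestronglyMeasurable hK x
  have i2 := integrable_conv_integrand h.ui h.uKi.aestronglyMeasurable huK x
  have h0 : 0 ≤ conv u (fun y => u y * KK v u y) x := conv_nonneg h.u0 h.uK0 x
  have h1 : conv u (fun y => u y * KK v u y) x ≤ conv u (KK v u) x :=
    integral_mono i2 i1 fun y => mul_le_mul_of_nonneg_left (h.uKle y) (h.u0 _)
  unfold LL
  rw [abs_le]
  constructor <;> linarith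

lemma Dat.PB (h : Dat B v u) (x : E d) : conv u (KK v u) x ≤ B * (∫ y, u y) ^ 2 := by
  refine (conv_le h.ui h.u0 h.Ki.aestronglyMeasurable h.K0 h.KB x).trans (le_of_eq ?_)
  ring

lemma Dat.LB (h : Dat B v u) (x : E d) : |LL v u x| ≤ B * (∫ y, u y) ^ 2 :=
  (h.Labs x).trans (h.PB x)

lemma Dat.uLi (h : Dat B v u) : Integrable (fun x => u x * LL v u x) := by
  refine h.Li.bdd_mul (c := 1) h.ui.aestronglyMeasurable ?_
  filter_upwards with x
  rw [Real.norm_eq_abs, abs_of_nonneg (h.u0 x)]
  exact h.u1 x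

lemma hat_sub {f g : E d → ℝ} (hf : Integrable f) (hg : Integrable g) (k : E d) :
    hat (fun x => f x - g x) k = hat f k - hat g k := by
  have h1 : (fun x => f x - g x) = fun x => f x + (-1) * g x := by funext x; ring
  rw [h1, hat_add hf (hg.const_mul (-1)), hat_smul]
  push_cast
  ring

lemma hat_congr {f g : E d → ℝ} (h : f =ᵐ[volume] g) (k : E d) : hat f k = hat g k := by
  rw [hat_eq, hat_eq]
  apply integral_congr_ae
  filter_upwards [h] with x hx
  rw [hx]

end basic

/-- From the weak form to the Fourier side. -/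
theorem four_of_weak {m ρ B : ℝ} {v u : E d → ℝ} (h : Dat B v u) (hs : IsBigSolution m ρ v u)
    (k : E d) : ((1 / m * ‖k‖ ^ 2 : ℝ) : ℂ) * hat u k =
    hat (SS v u) k * (1 - ρ * hat u k) ^ 2 +
      2 * ρ * (1 - ρ * hat u k) * hat (fun x => u x * KK v u x) k -
      ρ ^ 2 * hat (fun x => u x * LL v u x) k := by
  have e0 : (fun x => (1 - u x) * v x + (1 - u x) * (-2 * ρ * KK v u x + ρ ^ 2 * LL v u x)) =
      fun x => ((SS v u x + (-2 * ρ) * KK v u x) + (2 * ρ) * (u x * KK v u x)) +
        (ρ ^ 2 * LL v u x + (-ρ ^ 2) * (u x * LL v u x)) := by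
    funext x; unfold SS; ring
  have i1 : Integrable (fun x => (-2 * ρ) * KK v u x) := h.Ki.const_mul _
  have i2 : Integrable (fun x => (2 * ρ) * (u x * KK v u x)) := h.uKi.const_mul _
  have i3 : Integrable (fun x => ρ ^ 2 * LL v u x) := h.Li.const_mul _
  have i4 : Integrable (fun x => (-ρ ^ 2) * (u x * LL v u x)) := h.uLi.const_mul _
  have i5 : Integrable (fun x => SS v u x + (-2 * ρ) * KK v u x) := h.Si.add i1
  have i6 : Integrable (fun x => (SS v u x + (-2 * ρ) * KK v u x) + (2 * ρ) * (u x * KK v u x)) :=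
    i5.add i2
  have i7 : Integrable (fun x => ρ ^ 2 * LL v u x + (-ρ ^ 2) * (u x * LL v u x)) := i3.add i4
  have hF : Integrable (fun x => (1 - u x) * v x + (1 - u x) *
      (-2 * ρ * KK v u x + ρ ^ 2 * LL v u x)) := by
    rw [e0]; exact i6.add i7
  have key := hat_of_weak (-(1 / m)) u _ h.ui hF hs.eqn k
  have hL : hat (LL v u) k = hat u k * hat (KK v u) k -
      2 * (hat u k * hat (fun x => u x * KK v u x) k) := by
    have c1 := conv_integrable h.ui h.Ki
    have c2 := conv_integrable h.ui h.uKi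
    have : LL v u = fun x => conv u (KK v u) x - (2 : ℝ) * conv u (fun y => u y * KK v u y) x := rfl
    rw [this, hat_sub c1 (c2.const_mul 2), hat_smul, hat_conv h.ui h.Ki, hat_conv h.ui h.uKi]
    push_cast
    ring
  have hK : hat (KK v u) k = hat u k * hat (SS v u) k := hat_conv h.ui h.Si k
  rw [e0, hat_add i6 i7, hat_add i5 i2, hat_add h.Si i1, hat_add i3 i4, hat_smul, hat_smul,
    hat_smul, hat_smul, hL, hK] at key
  rw [neg_neg] at key
  rw [key]
  push_cast
  ring

lemma conv_congr {u u' f f' : E d → ℝ} (h1 : u =ᵐ[volume] u') (h2 : f =ᵐ[volume] f') (x : E d) :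
    conv u f x = conv u' f' x := by
  unfold conv
  apply integral_congr_ae
  have h3 : (fun y => u (x - y)) =ᵐ[volume] fun y => u' (x - y) :=
    (quasiMeasurePreserving_sub_left volume x).ae_eq h1
  filter_upwards [h3, h2] with y hy hy2
  rw [hy, hy2]

/-- Reduction to solutions with values in `[0, 1]` everywhere. -/
theorem big_of_solution {m ρ B : ℝ} {v u : E d → ℝ} (hm : 0 < m) (hρ : 0 < ρ) (hB : 0 < B)
    (hv : Integrable v) (hv0 : ∀ x, 0 ≤ v x) (hvB : ∀ x, v x ≤ B) (hs : IsBigSolution m ρ v u) :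
    ∃ u' : E d → ℝ, Big m ρ B v u' := by
  set u' : E d → ℝ := fun x => max 0 (min 1 (u x)) with hu'
  have hae : u =ᵐ[volume] u' := by
    filter_upwards [hs.range] with x hx
    simp only [hu']
    rw [min_eq_right hx.2, max_eq_right hx.1]
  have hui : Integrable u' := hs.integrable.congr hae
  have hdat : Dat B v u' :=
    { vi := hv, v0 := hv0, vB := hvB, Bpos := hB, ui := hui
      u0 := fun x => le_max_left _ _
      u1 := fun x => max_le zero_le_one (min_le_left _ _) }
  have hS : SS v u =ᵐ[volume] SS v u' := by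
    filter_upwards [hae] with x hx
    simp only [SS, hx]
  have hK : ∀ x, KK v u x = KK v u' x := fun x => conv_congr hae hS x
  have hL : ∀ x, LL v u x = LL v u' x := by
    intro x
    have e1 : KK v u = KK v u' := funext hK
    have e2 : (fun y => u y * KK v u' y) =ᵐ[volume] fun y => u' y * KK v u' y := by
      filter_upwards [hae] with y hy
      rw [hy]
    unfold LL
    rw [e1, conv_congr hae (Filter.EventuallyEq.refl _ (KK v u')) x, conv_congr hae e2 x]
  have hsol : IsBigSolution m ρ v u' :=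
    { integrable := hui
      range := Eventually.of_forall fun x => ⟨hdat.u0 x, hdat.u1 x⟩
      eqn := by
        intro φ h1 h2
        have h3 := hs.eqn φ h1 h2
        have e1 : ∫ x, u x * (Δ φ) x = ∫ x, u' x * (Δ φ) x := by
          apply integral_congr_ae
          filter_upwards [hae] with x hx
          rw [hx]
        have e2 : ∫ x, ((1 - u x) * v x + (1 - u x) *
            (-2 * ρ * KK v u x + ρ ^ 2 * LL v u x)) * φ x = ∫ x, ((1 - u' x) * v x + (1 - u' x) *
            (-2 * ρ * KK v u' x + ρ ^ 2 * LL v u' x)) * φ x := by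
          apply integral_congr_ae
          filter_upwards [hae] with x hx
          rw [hx, hK, hL]
        rw [← e1, ← e2]
        exact h3 }
  exact ⟨u', { hdat with mpos := hm, rpos := hρ, four := four_of_weak hdat hsol }⟩

end Pool.Agent.W793.BE
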