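import Pool.Agent.W793.BE.Star

/-!
# The Big Equation: the mass of a solution is at most `2 / ρ` at large density
-/

set_option autoImplicit false

open MeasureTheory Filter Topology
open scoped ContDiff Laplacian InnerProductSpace RealInnerProductSpace

namespace Pool.Agent.W793.BE

open Pool.Agent.H532R3.ME

variable {d : ℕ} {m ρ B : ℝ} {v u : E d → ℝ}

lemma int_conv {f g : E d → ℝ} (hf : Integrable f) (hg : Integrable g) :
    ∫ x, conv f g x = (∫ x, f x) * ∫ x, g x := by
  have h := hat_conv hf hg (0 : E d)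
  rw [hat_zero (conv_integrable hf hg), hat_zero hf, hat_zero hg] at h
  exact_mod_cast h

/-- lower bound of `∫ (1 - u) K` by a set where the potential is at least `τ` -/
lemma Dat.lower (h : Dat B v u) {A : Set (E d)} (hA : MeasurableSet A) (hAf : volume A ≠ ⊤)
    {τ : ℝ} (hτ : 0 ≤ τ) (hτv : ∀ x ∈ A, τ ≤ v x) :
    τ * (∫ x, u x) * ((volume A).toReal - 2 * ∫ x, u x) ≤
      (∫ x, u x) * (∫ x, SS v u x) - ∫ x, u x * KK v u x := by
  set J := ∫ x, u x with hJ
  set g : E d → ℝ := A.indicator fun x => 1 - u x with hg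
  have hg0 : ∀ x, 0 ≤ g x := fun x => Set.indicator_nonneg (fun y _ => by linarith [h.u1 y]) x
  have hg1 : ∀ x, g x ≤ 1 := by
    intro x
    by_cases hx : x ∈ A
    · rw [hg, Set.indicator_of_mem hx]
      linarith [h.u0 x]
    · rw [hg, Set.indicator_of_notMem hx]
      exact zero_le_one
  have hone : Integrable (A.indicator fun _ : E d => (1 : ℝ)) :=
    (integrable_indicator_iff hA).2 (integrableOn_const hAf)
  have hgi : Integrable g := by
    have h1 : g = fun x => (A.indicator (fun _ : E d => (1 : ℝ)) x) - A.indicator u x := by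
      funext x
      by_cases hx : x ∈ A
      · simp [hg, hx]
      · simp [hg, hx]
    rw [h1]
    exact hone.sub (h.ui.indicator hA)
  have hgint : (volume A).toReal - J ≤ ∫ x, g x := by
    have h1 : ∫ x, g x = (volume A).toReal - ∫ x in A, u x := by
      have h2 : g = fun x => (A.indicator (fun _ : E d => (1 : ℝ)) x) - A.indicator u x := by
        funext x
        by_cases hx : x ∈ A
        · simp [hg, hx]
        · simp [hg, hx]
      rw [h2, integral_sub hone (h.ui.indicator hA), integral_indicator hA, integral_indicator hA]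
      simp [Measure.real]
    rw [h1]
    have := setIntegral_le_integral (s := A) h.ui (Eventually.of_forall h.u0)
    linarith
  have hSg : ∀ x, τ * g x ≤ SS v u x := by
    intro x
    by_cases hx : x ∈ A
    · rw [hg, Set.indicator_of_mem hx]
      unfold SS
      have := mul_le_mul_of_nonneg_left (hτv x hx) (show 0 ≤ 1 - u x by linarith [h.u1 x])
      linarith
    · rw [hg, Set.indicator_of_notMem hx, mul_zero]
      exact h.S0 x
  have hSabs : ∀ x, |SS v u x| ≤ B := fun x => by rw [abs_of_nonneg (h.S0 x)]; exact h.SB x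
  have hgabs : ∀ x, |g x| ≤ 1 := fun x => by rw [abs_of_nonneg (hg0 x)]; exact hg1 x
  have hKg : ∀ x, τ * conv u g x ≤ KK v u x := by
    intro x
    unfold KK conv
    rw [← integral_const_mul]
    apply integral_mono ((integrable_conv_integrand h.ui hgi.aestronglyMeasurable hgabs x).const_mul τ)
      (integrable_conv_integrand h.ui h.Si.aestronglyMeasurable hSabs x)
    intro y
    have := mul_le_mul_of_nonneg_left (hSg y) (h.u0 (x - y))
    simp only
    linarith
  have hci := conv_integrable h.ui hgi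
  have hc1 : ∀ x, conv u g x ≤ 1 * J := conv_le h.ui h.u0 hgi.aestronglyMeasurable hg0 hg1
  have hc0 : ∀ x, 0 ≤ conv u g x := conv_nonneg h.u0 hg0
  -- integrate
  have hKint : ∫ x, KK v u x = J * ∫ x, SS v u x := int_conv h.ui h.Si
  have e1 : J * (∫ x, SS v u x) - ∫ x, u x * KK v u x = ∫ x, (1 - u x) * KK v u x := by
    rw [← hKint, ← integral_sub h.Ki h.uKi]
    congr 1; ext x; ring
  rw [e1]
  have i1 : Integrable (fun x => (1 - u x) * KK v u x) := by
    refine (h.Ki.sub h.uKi).congr (Eventually.of_forall fun x => ?_)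
    simp only [Pi.sub_apply]
    ring
  have i2 : Integrable (fun x => τ * (conv u g x - J * u x)) := (hci.sub (h.ui.const_mul J)).const_mul τ
  have hJ0 : 0 ≤ J := h.J0
  have e2 : ∫ x, τ * (conv u g x - J * u x) ≤ ∫ x, (1 - u x) * KK v u x := by
    apply integral_mono i2 i1
    intro x
    simp only
    have h1 : 0 ≤ 1 - u x := by linarith [h.u1 x]
    have h2 := mul_le_mul_of_nonneg_left (hKg x) h1
    have h3 : u x * conv u g x ≤ J * u x := by
      have := mul_le_mul_of_nonneg_left (hc1 x) (h.u0 x)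
      linarith
    have h4 := mul_le_mul_of_nonneg_left h3 hτ
    nlinarith
  refine le_trans ?_ e2
  rw [integral_const_mul, integral_sub hci (h.ui.const_mul J), integral_const_mul, int_conv h.ui hgi,
    ← hJ]
  have h5 : J * ((volume A).toReal - J) ≤ J * ∫ x, g x := mul_le_mul_of_nonneg_left hgint hJ0
  have h6 := mul_le_mul_of_nonneg_left h5 hτ
  nlinarith

/-- `∫ u v ≤ B J` -/
lemma Dat.uv (h : Dat B v u) : (∫ x, v x) - B * (∫ x, u x) ≤ ∫ x, SS v u x := by
  have i1 := uv_integrable h.vi h.ui (Eventually.of_forall fun x => ⟨h.u0 x, h.u1 x⟩)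
  have e1 : ∫ x, SS v u x = (∫ x, v x) - ∫ x, u x * v x := by
    rw [← integral_sub h.vi i1]
    congr 1; ext x
    unfold SS; ring
  have e2 : ∫ x, u x * v x ≤ B * ∫ x, u x := by
    rw [← integral_const_mul]
    apply integral_mono i1 (h.ui.const_mul B)
    intro x
    have := mul_le_mul_of_nonneg_left (h.vB x) (h.u0 x)
    simp only
    linarith
  rw [e1]
  linarith

lemma Dat.Sle (h : Dat B v u) : ∫ x, SS v u x ≤ ∫ x, v x := by
  apply integral_mono h.Si h.vi
  intro x
  unfold SS
  nlinarith [h.u0 x, h.v0 x]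

lemma Dat.kap (h : Dat B v u) : ∫ x, u x * KK v u x ≤ B * (∫ x, u x) ^ 2 := by
  calc ∫ x, u x * KK v u x ≤ ∫ x, (B * ∫ y, u y) * u x := by
        apply integral_mono h.uKi (h.ui.const_mul _)
        intro x
        have := mul_le_mul_of_nonneg_left (h.KB x) (h.u0 x)
        simp only
        linarith
    _ = _ := by rw [integral_const_mul]; ring

/-- **The mass of a solution is at most `2 / ρ`.** -/
theorem mass (hd : 1 ≤ d) {B c : ℝ} (hB : 0 < B) (hc : 0 < c) {v : E d → ℝ}
    (hinf : ¬ Integrable (fun x => ‖x‖ ^ 2 * v x)) (hV : 0 < ∫ x, v x)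
    (hlow : ∀ x, c ≤ v x * (1 + ‖x‖) ^ (2 * d)) :
    ∃ ρ₁ : ℝ, 0 < ρ₁ ∧ ∀ (m ρ : ℝ) (u : E d → ℝ), ρ₁ ≤ ρ → Big m ρ B v u →
      ρ * ∫ x, u x ≤ 2 := by
  set V := ∫ x, v x with hVdef
  set b := (volume (Metric.ball (0 : E d) 1)).toReal with hb
  have hb0 : 0 < b := ENNReal.toReal_pos (Metric.measure_ball_pos volume 0 one_pos).ne'
    measure_ball_lt_top.ne
  set j0 := V / (4 * B) with hj0
  have hj0p : 0 < j0 := by positivity
  set θ := 2 * c / 4 ^ d * (j0 / (1 + 4 * j0 / b)) ^ 2 with hθ
  have hθp : 0 < θ := by positivity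
  refine ⟨V / θ + 1, by positivity, fun m ρ u hρ h => ?_⟩
  have hρ0 := h.rpos
  set J := ∫ x, u x with hJ
  set s := ∫ x, SS v u x with hs
  set κ := ∫ x, u x * KK v u x with hκ
  have hstar := h.star hinf
  rw [← hJ, ← hs, ← hκ] at hstar
  have hsV : s ≤ V := h.Sle
  have hJ0 : 0 ≤ J := h.J0
  have hmain : ρ * (J * s - κ) ≤ V := by nlinarith
  rcases le_or_gt J j0 with hcase | hcase
  · -- small mass
    have h1 : V - B * J ≤ s := h.uv
    have h2 : κ ≤ B * J ^ 2 := h.kap
    have h3 : 4 * B * J ≤ V := by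
      rw [hj0, le_div_iff₀ (by positivity)] at hcase
      linarith
    have h4 : J * (V / 2) ≤ J * s - κ := by nlinarith
    have h5 : ρ * (J * (V / 2)) ≤ V := le_trans (mul_le_mul_of_nonneg_left h4 hρ0.le) hmain
    nlinarith
  · exfalso
    set r := 4 * J / b with hr
    have hr0 : 0 < r := by
      have : 0 < J := lt_trans hj0p hcase
      positivity
    obtain ⟨R, hR0, hRd⟩ : ∃ R : ℝ, 0 < R ∧ R ^ d = r :=
      ⟨r ^ ((d : ℝ)⁻¹), by positivity, Real.rpow_inv_natCast_pow hr0.le (by omega)⟩
    set A := Metric.ball (0 : E d) R with hA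
    have hvol : (volume A).toReal = 4 * J := by
      rw [hA, Measure.addHaar_ball_of_pos volume (0 : E d) hR0, ENNReal.toReal_mul, ENNReal.toReal_ofReal (by positivity)]
      rw [finrank_euclideanSpace_fin, hRd, ← hb, hr]
      field_simp
    have hτ : ∀ x ∈ A, c / (4 ^ d * (1 + r) ^ 2) ≤ v x := by
      intro x hx
      rw [hA, mem_ball_zero_iff] at hx
      have h1 := hlow x
      have h2 : (1 + ‖x‖) ^ (2 * d) ≤ 4 ^ d * (1 + r) ^ 2 := by
        have h3 : (1 + ‖x‖) ^ d ≤ 2 ^ d * (1 + r) := by
          have h4 : 1 + ‖x‖ ≤ 2 * max 1 R := by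
            have := le_max_left (1 : ℝ) R
            have := le_max_right (1 : ℝ) R
            linarith
          calc (1 + ‖x‖) ^ d ≤ (2 * max 1 R) ^ d := pow_le_pow_left₀ (by positivity) h4 d
            _ = 2 ^ d * (max 1 R) ^ d := mul_pow _ _ _
            _ ≤ 2 ^ d * (1 + r) := by
              apply mul_le_mul_of_nonneg_left _ (by positivity)
              rcases max_choice (1 : ℝ) R with hmx | hmx
              · rw [hmx, one_pow]; linarith
              · rw [hmx, hRd]; linarith
        calc (1 + ‖x‖) ^ (2 * d) = ((1 + ‖x‖) ^ d) ^ 2 := by rw [← pow_mul, mul_comm]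
          _ ≤ (2 ^ d * (1 + r)) ^ 2 := pow_le_pow_left₀ (by positivity) h3 2
          _ = 4 ^ d * (1 + r) ^ 2 := by
            rw [mul_pow, ← pow_mul, mul_comm d 2, pow_mul]; norm_num
      rw [div_le_iff₀ (by positivity)]
      exact h1.trans (mul_le_mul_of_nonneg_left h2 (h.v0 x))
    have hlo := h.toDat.lower (A := A) Metric.isOpen_ball.measurableSet measure_ball_lt_top.ne
      (by positivity) hτ
    rw [hvol, ← hJ, ← hs, ← hκ] at hlo
    have hmono : j0 / (1 + 4 * j0 / b) ≤ J / (1 + r) := by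
      rw [div_le_div_iff₀ (by positivity) (by positivity), hr]
      have : j0 * (4 * J / b) = J * (4 * j0 / b) := by ring
      nlinarith
    have hθle : θ ≤ c / (4 ^ d * (1 + r) ^ 2) * J * (4 * J - 2 * J) := by
      have e : c / (4 ^ d * (1 + r) ^ 2) * J * (4 * J - 2 * J) =
          2 * c / 4 ^ d * (J / (1 + r)) ^ 2 := by
        have : (1 + r) ≠ 0 := by positivity
        field_simp
        ring
      rw [e, hθ]
      apply mul_le_mul_of_nonneg_left _ (by positivity)
      exact pow_le_pow_left₀ (by positivity) hmono 2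
    have hb1 : θ ≤ J * s - κ := hθle.trans hlo
    have hb2 : ρ * θ ≤ V := le_trans (mul_le_mul_of_nonneg_left hb1 hρ0.le) hmain
    have hb3 : V / θ < ρ := by linarith
    rw [div_lt_iff₀ hθp] at hb3
    linarith

end Pool.Agent.W793.BE
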