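import Pool.Agent.W793.BE.Four

/-!
# The Big Equation: the first inequality `ρ ∫ (1 - u) K ≤ ∫ S`

It follows from the behaviour at small wave vectors if the potential has infinite second moment.
-/

set_option autoImplicit false

open MeasureTheory Filter Topology
open scoped ContDiff Laplacian InnerProductSpace RealInnerProductSpace

namespace Pool.Agent.W793.BE

open Pool.Agent.H532R3.ME

variable {d : ℕ} {m ρ B : ℝ} {v u : E d → ℝ}

lemma hat_eq_df (f : E d → ℝ) (k : E d) : hat f k = ((∫ x, f x : ℝ) : ℂ) - df f k := by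
  unfold df; ring

lemma re_le_norm (z : ℂ) : |z.re| ≤ ‖z‖ := Complex.abs_re_le_norm z

/-- the equation at `k = 0` -/
lemma Big.zero (h : Big m ρ B v u) :
    0 = (∫ x, SS v u x) * (1 - ρ * ∫ x, u x) ^ 2 +
      2 * ρ * (1 - ρ * ∫ x, u x) * (∫ x, u x * KK v u x) - ρ ^ 2 * ∫ x, u x * LL v u x := by
  have h0 := h.four 0
  rw [hat_zero h.ui, hat_zero h.Si, hat_zero h.uKi, hat_zero h.uLi, norm_zero] at h0
  have h1 : (((0 : ℝ)) : ℂ) = (((∫ x, SS v u x) * (1 - ρ * ∫ x, u x) ^ 2 +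
      2 * ρ * (1 - ρ * ∫ x, u x) * (∫ x, u x * KK v u x) - ρ ^ 2 * ∫ x, u x * LL v u x : ℝ) : ℂ) := by
    push_cast
    rw [← h0]
    push_cast
    ring
  exact_mod_cast h1

/-- the difference of the equations at `k` and at `0` -/
lemma Big.diff (h : Big m ρ B v u) (k : E d) :
    ((1 / m * ‖k‖ ^ 2 : ℝ) : ℂ) * hat u k =
      2 * ρ * df u k * (((1 - ρ * ∫ x, u x) * (∫ x, SS v u x) + ρ * ∫ x, u x * KK v u x : ℝ) : ℂ)
      - df (SS v u) k * ((((1 - ρ * ∫ x, u x) ^ 2 : ℝ)) : ℂ)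
      + (ρ ^ 2 * (∫ x, SS v u x : ℝ) * df u k ^ 2
        - 2 * ρ * (1 - ρ * (∫ x, u x : ℝ)) * (df (SS v u) k * df u k)
        - ρ ^ 2 * (df (SS v u) k * df u k ^ 2)
        - 2 * ρ * (1 - ρ * (∫ x, u x : ℝ)) * df (fun x => u x * KK v u x) k
        - 2 * ρ ^ 2 * (df u k * df (fun x => u x * KK v u x) k)
        + ρ ^ 2 * df (fun x => u x * LL v u x) k) := by
  have h0 := h.zero
  have h1 : ((0 : ℝ) : ℂ) = (((∫ x, SS v u x) * (1 - ρ * ∫ x, u x) ^ 2 +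
      2 * ρ * (1 - ρ * ∫ x, u x) * (∫ x, u x * KK v u x) - ρ ^ 2 * ∫ x, u x * LL v u x : ℝ) : ℂ) := by
    exact_mod_cast congrArg (fun x : ℝ => (x : ℂ)) h0
  rw [h.four k, hat_eq_df (SS v u), hat_eq_df (fun x => u x * KK v u x),
    hat_eq_df (fun x => u x * LL v u x), hat_eq_df u]
  push_cast at h1 ⊢
  linear_combination -h1

/-- real part of the defect of `u L` -/
lemma Dat.reQ (h : Dat B v u) (k : E d) :
    |(df (fun x => u x * LL v u x) k).re| ≤ ∫ x, (u x * conv u (KK v u) x) * oc k x := by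
  rw [df_re h.uLi]
  have hc := conv_integrable h.ui h.Ki
  have i1 : Integrable (fun x => u x * conv u (KK v u) x) := by
    refine hc.bdd_mul (c := 1) h.ui.aestronglyMeasurable ?_
    filter_upwards with x
    rw [Real.norm_eq_abs, abs_of_nonneg (h.u0 x)]
    exact h.u1 x
  refine (abs_integral_le_integral_abs).trans ?_
  apply integral_mono (integrable_mul_oc h.uLi k).abs (integrable_mul_oc i1 k)
  intro x
  simp only
  rw [abs_mul, abs_mul, abs_of_nonneg (oc_nonneg k x), abs_of_nonneg (h.u0 x)]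
  exact mul_le_mul_of_nonneg_right (mul_le_mul_of_nonneg_left (h.Labs x) (h.u0 x)) (oc_nonneg k x)

/-- scalar part of the first inequality -/
lemma star_scal {ρ s w n1 n2 n3 pr qr hr hS X C1 C2 C3 C4 C5 ε A c Er : ℝ} (hρ : 0 ≤ ρ)
    (hs : 0 ≤ s) (hw : 0 ≤ w) (h1 : 0 ≤ n1) (h2 : 0 ≤ n2) (h3 : 0 ≤ n3) (hpr : 0 ≤ pr)
    (hqr : 0 ≤ qr) (hr0 : 0 ≤ hr) (hS0 : 0 ≤ hS) (hε : 0 ≤ ε) (hε1 : ε ≤ 1)
    (hn2 : n2 ≤ 2 * s) (c1 : n1 ^ 2 ≤ C1 * X + ε * hr) (c2 : n2 ^ 2 ≤ C2 * X + ε * hS)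
    (c3 : n3 ^ 2 ≤ C3 * X + ε * pr) (c4 : pr ≤ C4 * X + ε * hr) (c5 : qr ≤ C5 * X + ε * hr)
    (hE : Er ≤ ρ ^ 2 * s * n1 ^ 2 + 2 * ρ * w * (n2 * n1) + ρ ^ 2 * (n2 * n1 ^ 2) +
      2 * ρ * w * pr + 2 * ρ ^ 2 * (n1 * n3) + ρ ^ 2 * qr)
    (hA : A = 3 * ρ ^ 2 * s + 2 * ρ * w + 3 * ρ ^ 2 + 1) (hc : 10 * A * ε ≤ c) :
    Er ≤ A * (C1 + C2 + C3 + 2 * C4 + C5) * X + c / 2 * (hr + hS) := by
  set W := n1 ^ 2 + n2 ^ 2 + n3 ^ 2 + pr + qr with hW
  have q1 : 0 ≤ n1 ^ 2 := sq_nonneg _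
  have q2 : 0 ≤ n2 ^ 2 := sq_nonneg _
  have q3 : 0 ≤ n3 ^ 2 := sq_nonneg _
  have hW0 : 0 ≤ W := by rw [hW]; linarith
  have m21 : n2 * n1 + pr ≤ W := by
    have := sq_nonneg (n1 - n2)
    rw [hW]
    nlinarith
  have m13 : n1 * n3 ≤ W := by
    have := sq_nonneg (n1 - n3)
    rw [hW]
    nlinarith
  have m3 : n2 * n1 ^ 2 ≤ 2 * s * W := by
    have e1 : n2 * n1 ^ 2 ≤ 2 * s * n1 ^ 2 := mul_le_mul_of_nonneg_right hn2 q1
    have e2 : 2 * s * n1 ^ 2 ≤ 2 * s * W := mul_le_mul_of_nonneg_left (by rw [hW]; linarith)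
      (by positivity)
    linarith
  have e1 : ρ ^ 2 * s * n1 ^ 2 ≤ ρ ^ 2 * s * W :=
    mul_le_mul_of_nonneg_left (by rw [hW]; linarith) (by positivity)
  have e2 : 2 * ρ * w * (n2 * n1 + pr) ≤ 2 * ρ * w * W :=
    mul_le_mul_of_nonneg_left m21 (by positivity)
  have e3 : ρ ^ 2 * (n2 * n1 ^ 2) ≤ ρ ^ 2 * (2 * s * W) := mul_le_mul_of_nonneg_left m3 (by positivity)
  have e4 : 2 * ρ ^ 2 * (n1 * n3) ≤ 2 * ρ ^ 2 * W := mul_le_mul_of_nonneg_left m13 (by positivity)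
  have e5 : ρ ^ 2 * qr ≤ ρ ^ 2 * W := mul_le_mul_of_nonneg_left (by rw [hW]; linarith) (by positivity)
  have hErr2 : Er ≤ A * W := by
    rw [hA]
    linarith
  have hA0 : 0 ≤ A := by rw [hA]; positivity
  have hWle : W ≤ (C1 + C2 + C3 + 2 * C4 + C5) * X + 5 * ε * (hr + hS) := by
    have f1 : ε * pr ≤ pr := by nlinarith
    have f3 : 0 ≤ ε * hr := by positivity
    have f4 : 0 ≤ ε * hS := by positivity
    rw [hW]
    linarith
  calc Er ≤ A * W := hErr2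
    _ ≤ A * ((C1 + C2 + C3 + 2 * C4 + C5) * X + 5 * ε * (hr + hS)) :=
        mul_le_mul_of_nonneg_left hWle hA0
    _ = A * (C1 + C2 + C3 + 2 * C4 + C5) * X + (10 * A * ε) / 2 * (hr + hS) := by ring
    _ ≤ A * (C1 + C2 + C3 + 2 * C4 + C5) * X + c / 2 * (hr + hS) := by
        have : (10 * A * ε) / 2 * (hr + hS) ≤ c / 2 * (hr + hS) :=
          mul_le_mul_of_nonneg_right (by linarith) (by positivity)
        linarith

/-- **The first inequality.** -/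
theorem Big.star (h : Big m ρ B v u) (hinf : ¬ Integrable (fun x => ‖x‖ ^ 2 * v x)) :
    0 ≤ (1 - ρ * ∫ x, u x) * (∫ x, SS v u x) + ρ * ∫ x, u x * KK v u x := by
  set J := ∫ x, u x with hJ
  set s := ∫ x, SS v u x with hs
  set κ := ∫ x, u x * KK v u x with hκ
  have hJ0 : 0 ≤ J := h.J0
  have hs0 : 0 ≤ s := integral_nonneg h.S0
  have hκ0 : 0 ≤ κ := integral_nonneg h.uK0
  have hρ := h.rpos
  have hm := h.mpos
  by_contra hcon
  push Not at hcon
  set D := (1 - ρ * J) * s + ρ * κ with hD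
  have hJpos : 0 < J := by
    rcases eq_or_lt_of_le hJ0 with h1 | h1
    · exfalso
      rw [← h1] at hD
      nlinarith [mul_nonneg hρ.le hκ0]
    · exact h1
  have hI : (1 - ρ * J) ≠ 0 := by
    intro h1
    rw [h1] at hD
    nlinarith [mul_nonneg hρ.le hκ0]
  set b := (1 - ρ * J) ^ 2 with hb
  have hb0 : 0 < b := by positivity
  set a := -(2 * ρ * D) with ha
  have ha0 : 0 < a := by rw [ha]; nlinarith
  set c := min a b with hc
  have hc0 : 0 < c := lt_min ha0 hb0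
  -- constants
  set A := 3 * ρ ^ 2 * s + 2 * ρ * |1 - ρ * J| + 3 * ρ ^ 2 + 1 with hA
  have hA0 : 0 < A := by positivity
  set ε := min 1 (c / (10 * A)) with hε
  have hε0 : 0 < ε := lt_min one_pos (by positivity)
  have hε1 : ε ≤ 1 := min_le_left _ _
  have hεc : 10 * A * ε ≤ c := by
    have : ε ≤ c / (10 * A) := min_le_right _ _
    rw [le_div_iff₀ (by positivity)] at this
    linarith
  obtain ⟨C1, hC1, b1⟩ := df_sq h.ui h.u0 hε0
  obtain ⟨C2, hC2, b2⟩ := df_sq h.Si h.S0 hε0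
  obtain ⟨C3, hC3, b3⟩ := df_sq h.uKi h.uK0 hε0
  have hBJ : 0 < B * J := mul_pos h.Bpos hJpos
  obtain ⟨C4, hC4, b4⟩ := light h.ui h.u0 h.Ki.aestronglyMeasurable h.K0 h.KB
    (fun ε hε => conv_decay h.ui h.Si h.u0 h.S0 one_pos h.Bpos h.u1 h.SB hε) hε0
  obtain ⟨C5, hC5, b5⟩ := light h.ui h.u0 (conv_integrable h.ui h.Ki).aestronglyMeasurable
    (fun x => conv_nonneg h.u0 h.K0 x) h.PB
    (fun ε hε => conv_decay h.ui h.Ki h.u0 h.K0 one_pos hBJ h.u1 h.KB hε) hε0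
  set C' := A * (C1 + C2 + C3 + 2 * C4 + C5) with hC'
  have hC'0 : 0 ≤ C' := by positivity
  -- small wave vectors
  obtain ⟨δ, hδ, hδu⟩ : ∃ δ : ℝ, 0 < δ ∧ ∀ k : E d, ‖k‖ < δ → 0 ≤ (hat u k).re := by
    have h1 : Continuous fun k : E d => (hat u k).re := Complex.continuous_re.comp (hat_continuous h.ui)
    have h2 : (hat u (0 : E d)).re = J := by rw [hat_zero h.ui]; simp [hJ]
    have h3 : ∀ᶠ k : E d in 𝓝 0, 0 < (hat u k).re := by
      apply h1.continuousAt.eventually (lt_mem_nhds _)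
      change 0 < (hat u (0 : E d)).re
      rw [h2]; exact hJpos
    obtain ⟨δ, hδ, h4⟩ := Metric.eventually_nhds_iff.1 h3
    exact ⟨δ, hδ, fun k hk => (h4 (by simpa using hk)).le⟩
  have hinf' : ¬ Integrable (fun x => ‖x‖ ^ 2 * (u x + SS v u x)) := by
    intro h1
    apply hinf
    refine (h1.const_mul (1 + B)).mono' ?_ ?_
    · exact (by fun_prop : AEStronglyMeasurable (fun x : E d => ‖x‖ ^ 2)).mul h.vi.aestronglyMeasurable
    · filter_upwards with x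
      rw [Real.norm_eq_abs, abs_of_nonneg (mul_nonneg (by positivity) (h.v0 x))]
      have h2 : v x ≤ (1 + B) * (u x + SS v u x) := by
        have h3 : v x = SS v u x + u x * v x := by unfold SS; ring
        have h4 : u x * v x ≤ u x * B := mul_le_mul_of_nonneg_left (h.vB x) (h.u0 x)
        nlinarith [h.S0 x, h.u0 x, h.Bpos, mul_nonneg h.Bpos.le (h.S0 x)]
      calc ‖x‖ ^ 2 * v x ≤ ‖x‖ ^ 2 * ((1 + B) * (u x + SS v u x)) :=
            mul_le_mul_of_nonneg_left h2 (by positivity)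
        _ = (1 + B) * (‖x‖ ^ 2 * (u x + SS v u x)) := by ring
  obtain ⟨k, hk0, hkδ, hkM⟩ := inf_moment (h.ui.add h.Si)
    (fun x => add_nonneg (h.u0 x) (h.S0 x)) hinf' (2 * C' / c) hδ
  have hsum : ∫ x, (u + SS v u) x * oc k x = (∫ x, u x * oc k x) + ∫ x, SS v u x * oc k x := by
    rw [← integral_add (integrable_mul_oc h.ui k) (integrable_mul_oc h.Si k)]
    congr 1; ext x
    simp only [Pi.add_apply]
    ring
  rw [hsum] at hkM
  set hr := ∫ x, u x * oc k x with hhr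
  set hS := ∫ x, SS v u x * oc k x with hhS
  have hr0 : 0 ≤ hr := integral_nonneg fun x => mul_nonneg (h.u0 x) (oc_nonneg k x)
  have hS0 : 0 ≤ hS := integral_nonneg fun x => mul_nonneg (h.S0 x) (oc_nonneg k x)
  have hkp : 0 < ‖k‖ ^ 2 := by have := norm_pos_iff.2 hk0; positivity
  -- the pieces
  set P : E d → ℝ := fun x => u x * KK v u x with hP
  set Q : E d → ℝ := fun x => u x * LL v u x with hQ
  have c1 := b1 k
  have c2 := b2 k
  have c3 := b3 k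
  have c4 := b4 k
  have c5 := b5 k
  have c6 := h.reQ k
  have hPr : (df P k).re = ∫ x, P x * oc k x := df_re h.uKi k
  have hPr0 : 0 ≤ ∫ x, P x * oc k x := integral_nonneg fun x => mul_nonneg (h.uK0 x) (oc_nonneg k x)
  set n1 := ‖df u k‖ with hn1
  set n2 := ‖df (SS v u) k‖ with hn2
  set n3 := ‖df P k‖ with hn3
  have n10 : 0 ≤ n1 := norm_nonneg _
  have n20 : 0 ≤ n2 := norm_nonneg _
  have n30 : 0 ≤ n3 := norm_nonneg _
  have hn2s : n2 ≤ 2 * s := by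
    rw [hn2]
    refine (df_norm_le h.Si h.S0 k).trans ?_
    rw [hs, ← integral_const_mul]
    apply integral_mono (integrable_mul_ne h.Si k) (h.Si.const_mul 2)
    intro x
    have := mul_le_mul_of_nonneg_left (ne_le_two k x) (h.S0 x)
    simpa [mul_comm] using this
  -- real part of the identity
  have hid := congrArg Complex.re (h.diff k)
  rw [← hJ, ← hs, ← hκ, ← hD] at hid
  set Err : ℂ := (ρ ^ 2 * (s : ℝ) * df u k ^ 2
        - 2 * ρ * (1 - ρ * (J : ℝ)) * (df (SS v u) k * df u k)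
        - ρ ^ 2 * (df (SS v u) k * df u k ^ 2)
        - 2 * ρ * (1 - ρ * (J : ℝ)) * df P k
        - 2 * ρ ^ 2 * (df u k * df P k)
        + ρ ^ 2 * df Q k) with hErr
  have hlhs : (((1 / m * ‖k‖ ^ 2 : ℝ) : ℂ) * hat u k).re = 1 / m * ‖k‖ ^ 2 * (hat u k).re := by
    rw [Complex.re_ofReal_mul]
  have hrhs : (2 * (ρ : ℂ) * df u k * ((D : ℝ) : ℂ) - df (SS v u) k * (((1 - ρ * J) ^ 2 : ℝ) : ℂ) +
      Err).re = 2 * ρ * D * hr - b * hS + Err.re := by
    rw [Complex.add_re, Complex.sub_re]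
    have e1 : (2 * (ρ : ℂ) * df u k * ((D : ℝ) : ℂ)).re = 2 * ρ * D * hr := by
      have : 2 * (ρ : ℂ) * df u k * ((D : ℝ) : ℂ) = ((2 * ρ * D : ℝ) : ℂ) * df u k := by
        push_cast; ring
      rw [this, Complex.re_ofReal_mul, df_re h.ui]
    have e2 : (df (SS v u) k * (((1 - ρ * J) ^ 2 : ℝ) : ℂ)).re = b * hS := by
      rw [mul_comm, Complex.re_ofReal_mul, df_re h.Si]
    rw [e1, e2]
  rw [hlhs, hrhs] at hid
  have hpos : 0 ≤ 1 / m * ‖k‖ ^ 2 * (hat u k).re := by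
    have := hδu k hkδ
    positivity
  -- bound of the error
  have hErrle : Err.re ≤ ρ ^ 2 * s * n1 ^ 2 + 2 * ρ * |1 - ρ * J| * (n2 * n1) +
      ρ ^ 2 * (n2 * n1 ^ 2) + 2 * ρ * |1 - ρ * J| * (∫ x, P x * oc k x) + 2 * ρ ^ 2 * (n1 * n3) +
      ρ ^ 2 * (∫ x, (u x * conv u (KK v u) x) * oc k x) := by
    have t1 : ((ρ : ℂ) ^ 2 * (s : ℝ) * df u k ^ 2).re ≤ ρ ^ 2 * s * n1 ^ 2 := by
      have e : (ρ : ℂ) ^ 2 * (s : ℝ) * df u k ^ 2 = ((ρ ^ 2 * s : ℝ) : ℂ) * df u k ^ 2 := by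
        push_cast; ring
      rw [e, Complex.re_ofReal_mul]
      apply mul_le_mul_of_nonneg_left _ (by positivity)
      refine (le_abs_self _).trans ((re_le_norm _).trans ?_)
      rw [norm_pow]
    have t2 : -(2 * (ρ : ℂ) * (1 - ρ * (J : ℝ)) * (df (SS v u) k * df u k)).re ≤
        2 * ρ * |1 - ρ * J| * (n2 * n1) := by
      have e : 2 * (ρ : ℂ) * (1 - ρ * (J : ℝ)) * (df (SS v u) k * df u k) =
          ((2 * ρ * (1 - ρ * J) : ℝ) : ℂ) * (df (SS v u) k * df u k) := by push_cast; ring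
      rw [e, Complex.re_ofReal_mul]
      refine (neg_le_abs _).trans ?_
      rw [abs_mul, abs_mul, abs_of_pos (by positivity : (0 : ℝ) < 2 * ρ)]
      apply mul_le_mul_of_nonneg_left _ (by positivity)
      exact (re_le_norm _).trans (le_of_eq (norm_mul _ _))
    have t3 : -((ρ : ℂ) ^ 2 * (df (SS v u) k * df u k ^ 2)).re ≤ ρ ^ 2 * (n2 * n1 ^ 2) := by
      have e : (ρ : ℂ) ^ 2 * (df (SS v u) k * df u k ^ 2) =
          ((ρ ^ 2 : ℝ) : ℂ) * (df (SS v u) k * df u k ^ 2) := by push_cast; ring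
      rw [e, Complex.re_ofReal_mul]
      refine (neg_le_abs _).trans ?_
      rw [abs_mul, abs_of_pos (by positivity : (0 : ℝ) < ρ ^ 2)]
      apply mul_le_mul_of_nonneg_left _ (by positivity)
      refine (re_le_norm _).trans (le_of_eq ?_)
      rw [norm_mul, norm_pow]
    have t4 : -(2 * (ρ : ℂ) * (1 - ρ * (J : ℝ)) * df P k).re ≤
        2 * ρ * |1 - ρ * J| * (∫ x, P x * oc k x) := by
      have e : 2 * (ρ : ℂ) * (1 - ρ * (J : ℝ)) * df P k =
          ((2 * ρ * (1 - ρ * J) : ℝ) : ℂ) * df P k := by push_cast; ring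
      rw [e, Complex.re_ofReal_mul, hPr]
      refine (neg_le_abs _).trans ?_
      rw [abs_mul, abs_mul, abs_of_pos (by positivity : (0 : ℝ) < 2 * ρ), abs_of_nonneg hPr0]
    have t5 : -(2 * (ρ : ℂ) ^ 2 * (df u k * df P k)).re ≤ 2 * ρ ^ 2 * (n1 * n3) := by
      have e : 2 * (ρ : ℂ) ^ 2 * (df u k * df P k) =
          ((2 * ρ ^ 2 : ℝ) : ℂ) * (df u k * df P k) := by push_cast; ring
      rw [e, Complex.re_ofReal_mul]
      refine (neg_le_abs _).trans ?_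
      rw [abs_mul, abs_of_pos (by positivity : (0 : ℝ) < 2 * ρ ^ 2)]
      apply mul_le_mul_of_nonneg_left _ (by positivity)
      exact (re_le_norm _).trans (le_of_eq (norm_mul _ _))
    have t6 : ((ρ : ℂ) ^ 2 * df Q k).re ≤ ρ ^ 2 * (∫ x, (u x * conv u (KK v u) x) * oc k x) := by
      have e : (ρ : ℂ) ^ 2 * df Q k = ((ρ ^ 2 : ℝ) : ℂ) * df Q k := by push_cast; ring
      rw [e, Complex.re_ofReal_mul]
      apply mul_le_mul_of_nonneg_left _ (by positivity)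
      exact (le_abs_self _).trans c6
    rw [hErr]
    simp only [Complex.add_re, Complex.sub_re]
    linarith
  have hfin : Err.re ≤ C' * ‖k‖ ^ 2 + c / 2 * (hr + hS) :=
    star_scal hρ.le hs0 (abs_nonneg _) n10 n20 n30 hPr0
      (integral_nonneg fun x => mul_nonneg (mul_nonneg (h.u0 x) (conv_nonneg h.u0 h.K0 x))
        (oc_nonneg k x)) hr0 hS0 hε0.le hε1 hn2s c1 c2 c3 c4 c5 hErrle hA hεc
  have hca : c ≤ a := min_le_left _ _
  have hcb : c ≤ b := min_le_right _ _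
  have e1 : c * hr ≤ a * hr := mul_le_mul_of_nonneg_right hca hr0
  have e2 : c * hS ≤ b * hS := mul_le_mul_of_nonneg_right hcb hS0
  have e3 : a * hr + b * hS ≤ Err.re := by rw [ha]; linarith
  have e4 : c / 2 * (hr + hS) ≤ C' * ‖k‖ ^ 2 := by linarith
  have e5 : 2 * C' / c * ‖k‖ ^ 2 * (c / 2) = C' * ‖k‖ ^ 2 := by field_simp
  have e6 : 2 * C' / c * ‖k‖ ^ 2 * (c / 2) < (hr + hS) * (c / 2) :=
    mul_lt_mul_of_pos_right hkM (by positivity)
  linarith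

end Pool.Agent.W793.BE
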